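import Pool.Agent.Lib.MP_28dd6c_pr.LLN

/-!
# The fluid limit: analysis of the internal clock
-/

namespace Pool.Agent.Lib.MP_28dd6c_pr

open Finset

/-- `P(Poisson(t) < q)`. -/
noncomputable def uu (q : ℕ) (t : ℝ) : ℝ := ∑ j ∈ range q, pp j t

/-- expected number of free seats `E (q - Poisson(t))^+`. -/
noncomputable def UU (q : ℕ) (t : ℝ) : ℝ := ∑ k ∈ range q, uu (k + 1) t

lemma zz_eq (q : ℕ) (t : ℝ) : zz q t = 1 - uu q t := rfl

lemma hasDerivAt_uu (q : ℕ) (t : ℝ) : HasDerivAt (uu (q + 1)) (-pp q t) t := by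
  induction q with
  | zero =>
    have h := hasDerivAt_pp 0 t
    unfold uu
    simp only [zero_add, range_one, sum_singleton]
    refine h.congr_deriv ?_
    unfold prevf
    simp
  | succ q ih =>
    have h := ih.add (hasDerivAt_pp (q + 1) t)
    have e : uu (q + 1 + 1) = fun x => uu (q + 1) x + pp (q + 1) x := by
      funext x
      unfold uu
      rw [Finset.sum_range_succ]
    rw [e]
    refine h.congr_deriv ?_
    unfold prevf
    simp only [Nat.add_one_ne_zero, if_false, Nat.add_sub_cancel]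
    ring

lemma hasDerivAt_UU (q : ℕ) (t : ℝ) : HasDerivAt (UU q) (-uu q t) t := by
  unfold UU
  have h : HasDerivAt (fun x => ∑ k ∈ range q, uu (k + 1) x) (∑ k ∈ range q, -pp k t) t :=
    HasDerivAt.fun_sum (fun k _ => hasDerivAt_uu k t)
  refine h.congr_deriv ?_
  rw [Finset.sum_neg_distrib]
  rfl

lemma hasDerivAt_zz (q : ℕ) (t : ℝ) : HasDerivAt (zz (q + 1)) (pp q t) t := by
  have h := (hasDerivAt_uu q t).const_sub 1
  have e : zz (q + 1) = fun x => 1 - uu (q + 1) x := rfl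
  rw [e]
  refine h.congr_deriv ?_
  ring

lemma uu_succ (q : ℕ) (t : ℝ) : uu (q + 1) t = uu q t + pp q t := by
  unfold uu; rw [Finset.sum_range_succ]

lemma UU_succ (q : ℕ) (t : ℝ) : UU (q + 1) t = UU q t + uu (q + 1) t := by
  unfold UU; rw [Finset.sum_range_succ]

lemma uu_nonneg (q : ℕ) {t : ℝ} (ht : 0 ≤ t) : 0 ≤ uu q t :=
  Finset.sum_nonneg (fun k _ => pp_nonneg k ht)

lemma UU_nonneg (q : ℕ) {t : ℝ} (ht : 0 ≤ t) : 0 ≤ UU q t :=
  Finset.sum_nonneg (fun _ _ => uu_nonneg _ ht)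

lemma uu_le_UU (q : ℕ) {t : ℝ} (ht : 0 ≤ t) : uu (q + 1) t ≤ UU (q + 1) t := by
  rw [UU_succ]; linarith [UU_nonneg q ht]

lemma pp_zero (t : ℝ) : pp 0 t = Real.exp (-t) := by
  unfold pp; simp

lemma pp_zero_pos (t : ℝ) : 0 < pp 0 t := by
  rw [pp_zero]; exact Real.exp_pos _

lemma uu_ge_pp_zero (q : ℕ) {t : ℝ} (ht : 0 ≤ t) : pp 0 t ≤ uu (q + 1) t := by
  unfold uu
  exact Finset.single_le_sum (f := fun j => pp j t) (fun k _ => pp_nonneg k ht)
    (mem_range.2 (Nat.succ_pos q))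

lemma uu_pos (q : ℕ) {t : ℝ} (ht : 0 ≤ t) : 0 < uu (q + 1) t :=
  lt_of_lt_of_le (pp_zero_pos t) (uu_ge_pp_zero q ht)

lemma pp_succ_mul (q : ℕ) (t : ℝ) : ((q : ℝ) + 1) * pp (q + 1) t = t * pp q t := by
  unfold pp
  rw [Nat.factorial_succ]
  push_cast
  have h2 : (q.factorial : ℝ) ≠ 0 := by exact_mod_cast (Nat.factorial_ne_zero q)
  have h3 : (q : ℝ) + 1 ≠ 0 := by positivity
  field_simp
  ring

/-- `r u_{r+1} - t u_r = ∑_{j ≤ r} (r - j) p_j`. -/
lemma rel_aux (r : ℕ) (t : ℝ) :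
    (r : ℝ) * uu (r + 1) t - t * uu r t = ∑ j ∈ range (r + 1), ((r : ℝ) - j) * pp j t := by
  induction r with
  | zero => simp [uu]
  | succ r ih =>
    rw [Finset.sum_range_succ]
    have h1 : ∑ j ∈ range (r + 1), (((r + 1 : ℕ) : ℝ) - j) * pp j t =
        ∑ j ∈ range (r + 1), ((r : ℝ) - j) * pp j t + uu (r + 1) t := by
      unfold uu
      rw [← Finset.sum_add_distrib]
      refine Finset.sum_congr rfl (fun j _ => ?_)
      push_cast; ring
    rw [h1, ← ih, uu_succ (r + 1), uu_succ r]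
    have h2 := pp_succ_mul r t
    push_cast
    have h3 : ((r : ℝ) + 1) * pp (r + 1) t = t * pp r t := h2
    ring_nf
    ring_nf at h3
    linarith

/-- log-concavity of the expected number of free seats, with a margin. -/
lemma logconcave (r : ℕ) {t : ℝ} (ht : 0 ≤ t) :
    0 ≤ uu (r + 1) t ^ 2 - UU (r + 1) t * pp r t ∧
    (1 ≤ r → pp 0 t ^ 2 ≤ uu (r + 1) t ^ 2 - UU (r + 1) t * pp r t) := by
  induction r with
  | zero =>
    have h1 : uu (0 + 1) t = pp 0 t := by unfold uu; simp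
    have h2 : UU (0 + 1) t = pp 0 t := by unfold UU; simp [h1]
    rw [h1, h2]
    constructor
    · nlinarith
    · intro h; omega
  | succ r ih =>
    have hkey : pp 0 t ^ 2 ≤ uu (r + 1 + 1) t ^ 2 - UU (r + 1 + 1) t * pp (r + 1) t := by
      have hr : (0 : ℝ) < (r : ℝ) + 1 := by positivity
      have e1 := UU_succ (r + 1) t
      have e2 := uu_succ (r + 1) t
      have e3 := pp_succ_mul r t
      have e4 := rel_aux (r + 1) t
      have e5 : ((r : ℝ) + 1) * pp 0 t ≤
          ∑ j ∈ range (r + 1 + 1), (((r + 1 : ℕ) : ℝ) - j) * pp j t := by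
        have h := Finset.single_le_sum (f := fun j : ℕ => (((r + 1 : ℕ) : ℝ) - j) * pp j t)
          (s := range (r + 1 + 1)) (fun k hk => ?_) (mem_range.2 (Nat.succ_pos (r + 1)))
        · simp only [Nat.cast_zero, sub_zero] at h
          push_cast at h ⊢
          exact h
        · have hk' : k ≤ r + 1 := Nat.lt_succ_iff.1 (mem_range.1 hk)
          have hk'' : (k : ℝ) ≤ ((r + 1 : ℕ) : ℝ) := by exact_mod_cast hk'
          exact mul_nonneg (by linarith) (pp_nonneg k ht)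
      have h6 : ((r : ℝ) + 1) * (uu (r + 1 + 1) t ^ 2 - UU (r + 1 + 1) t * pp (r + 1) t) =
          uu (r + 1) t * (((r + 1 : ℕ) : ℝ) * uu (r + 1 + 1) t - t * uu (r + 1) t) +
          t * (uu (r + 1) t ^ 2 - UU (r + 1) t * pp r t) := by
        rw [e1]
        push_cast
        have e2' : pp (r + 1) t = uu (r + 1 + 1) t - uu (r + 1) t := by linarith
        have e7 : ((r : ℝ) + 1) * (uu (r + 1 + 1) t ^ 2 -
            (UU (r + 1) t + uu (r + 1 + 1) t) * pp (r + 1) t) =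
            ((r : ℝ) + 1) * uu (r + 1 + 1) t * (uu (r + 1 + 1) t - pp (r + 1) t) -
            UU (r + 1) t * (((r : ℝ) + 1) * pp (r + 1) t) := by ring
        rw [e7, e3]
        have e8 : uu (r + 1 + 1) t - pp (r + 1) t = uu (r + 1) t := by linarith
        rw [e8]
        ring
      rw [e4] at h6
      have h7 : pp 0 t * (((r : ℝ) + 1) * pp 0 t) ≤
          uu (r + 1) t * ∑ j ∈ range (r + 1 + 1), (((r + 1 : ℕ) : ℝ) - j) * pp j t := by
        apply mul_le_mul (uu_ge_pp_zero r ht) e5 _ (uu_nonneg _ ht)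
        exact mul_nonneg hr.le (pp_zero_pos t).le
      have h8 : 0 ≤ t * (uu (r + 1) t ^ 2 - UU (r + 1) t * pp r t) := mul_nonneg ht ih.1
      have h9 : ((r : ℝ) + 1) * pp 0 t ^ 2 ≤
          ((r : ℝ) + 1) * (uu (r + 1 + 1) t ^ 2 - UU (r + 1 + 1) t * pp (r + 1) t) := by
        rw [h6]
        calc ((r : ℝ) + 1) * pp 0 t ^ 2 = pp 0 t * (((r : ℝ) + 1) * pp 0 t) := by ring
          _ ≤ _ := by linarith
      exact le_of_mul_le_mul_left h9 hr
    refine ⟨le_trans (by positivity) hkey, fun _ => hkey⟩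

/-- `u / p` is antitone. -/
lemma uu_mul_pp (r : ℕ) {s t : ℝ} (hs : 0 ≤ s) (hst : s ≤ t) :
    uu (r + 1) t * pp r s ≤ uu (r + 1) s * pp r t := by
  unfold uu
  rw [Finset.sum_mul, Finset.sum_mul]
  apply Finset.sum_le_sum
  intro j hj
  have hj' : j ≤ r := Nat.lt_succ_iff.1 (mem_range.1 hj)
  obtain ⟨k, rfl⟩ := Nat.exists_eq_add_of_le hj'
  unfold pp
  have ht : 0 ≤ t := hs.trans hst
  have h1 : s ^ k ≤ t ^ k := pow_le_pow_left₀ hs hst k
  have e1 : Real.exp (-t) * t ^ j / (j.factorial : ℝ) *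
      (Real.exp (-s) * s ^ (j + k) / ((j + k).factorial : ℝ)) =
      (Real.exp (-t) * Real.exp (-s) * (t ^ j * s ^ j) /
        ((j.factorial : ℝ) * ((j + k).factorial : ℝ))) * s ^ k := by
    rw [pow_add]; field_simp
  have e2 : Real.exp (-s) * s ^ j / (j.factorial : ℝ) *
      (Real.exp (-t) * t ^ (j + k) / ((j + k).factorial : ℝ)) =
      (Real.exp (-t) * Real.exp (-s) * (t ^ j * s ^ j) /
        ((j.factorial : ℝ) * ((j + k).factorial : ℝ))) * t ^ k := by
    rw [pow_add]; field_simp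
  rw [e1, e2]
  exact mul_le_mul_of_nonneg_left h1 (by positivity)

lemma uu_antitone (q : ℕ) {s t : ℝ} (hs : 0 ≤ s) (hst : s ≤ t) : uu (q + 1) t ≤ uu (q + 1) s := by
  have h : AntitoneOn (uu (q + 1)) (Set.Ici 0) := by
    apply antitoneOn_of_deriv_nonpos (convex_Ici 0)
    · exact fun x _ => (hasDerivAt_uu q x).continuousAt.continuousWithinAt
    · exact fun x _ => (hasDerivAt_uu q x).differentiableAt.differentiableWithinAt
    · intro x hx
      rw [interior_Ici] at hx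
      rw [(hasDerivAt_uu q x).deriv]
      have := pp_nonneg q (le_of_lt hx)
      linarith
  exact h hs (Set.mem_Ici.2 (hs.trans hst)) hst

lemma zz_mono (q : ℕ) {s t : ℝ} (hs : 0 ≤ s) (hst : s ≤ t) : zz (q + 1) s ≤ zz (q + 1) t := by
  rw [zz_eq, zz_eq]; linarith [uu_antitone q hs hst]

lemma zz_strictMono (q : ℕ) {s t : ℝ} (hs : 0 ≤ s) (hst : s < t) :
    zz (q + 1) s < zz (q + 1) t := by
  have h : StrictMonoOn (zz (q + 1)) (Set.Ici 0) := by
    apply strictMonoOn_of_deriv_pos (convex_Ici 0)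
    · exact fun x _ => (hasDerivAt_zz q x).continuousAt.continuousWithinAt
    · intro x hx
      rw [interior_Ici] at hx
      rw [(hasDerivAt_zz q x).deriv]
      have hx' : 0 < x := hx
      unfold pp
      positivity
  exact h hs (Set.mem_Ici.2 (hs.trans hst.le)) hst

lemma zz_lipschitz (q : ℕ) {s t : ℝ} (hs : 0 ≤ s) (hst : s ≤ t) :
    zz (q + 1) t - zz (q + 1) s ≤ t - s := by
  have ht : 0 ≤ t := hs.trans hst
  have := (convex_Ici (0 : ℝ)).norm_image_sub_le_of_norm_hasDerivWithin_le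
    (f := zz (q + 1)) (f' := fun x => pp q x) (C := 1)
    (fun x _ => (hasDerivAt_zz q x).hasDerivWithinAt)
    (fun x hx => by
      rw [Real.norm_eq_abs, abs_of_nonneg (pp_nonneg q hx)]
      exact pp_le_one q hx)
    (x := s) (y := t) hs ht
  rw [Real.norm_eq_abs, Real.norm_eq_abs, abs_of_nonneg (by linarith : 0 ≤ t - s)] at this
  have h2 := le_abs_self (zz (q + 1) t - zz (q + 1) s)
  linarith

lemma zz_zero (q : ℕ) : zz (q + 1) 0 = 0 := by
  unfold zz
  rw [Finset.sum_range_succ']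
  have : ∑ k ∈ range q, pp (k + 1) 0 = 0 := by
    apply Finset.sum_eq_zero
    intro k _
    unfold pp; simp
  rw [this, pp_zero]; simp

lemma uu_zero (q : ℕ) : uu (q + 1) 0 = 1 := by
  have := zz_zero q
  rw [zz_eq] at this
  linarith

lemma UU_zero (q : ℕ) : UU q 0 = q := by
  unfold UU
  rw [Finset.sum_congr rfl (fun k _ => uu_zero k)]
  simp

/-- the crude bound `u ≤ e^{-t} q (1+t)^q`-/
noncomputable def PU (q : ℕ) (t : ℝ) : ℝ := ∑ j ∈ range q, t ^ j / (j.factorial : ℝ)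

lemma uu_eq_exp_mul (q : ℕ) (t : ℝ) : uu q t = Real.exp (-t) * PU q t := by
  unfold uu PU pp
  rw [Finset.mul_sum]
  exact Finset.sum_congr rfl (fun j _ => by ring)

lemma tendsto_pp (j : ℕ) : Filter.Tendsto (pp j) Filter.atTop (nhds 0) := by
  have h := Real.tendsto_pow_mul_exp_neg_atTop_nhds_zero j
  have h2 := h.div_const (j.factorial : ℝ)
  rw [zero_div] at h2
  refine h2.congr (fun x => ?_)
  unfold pp
  ring

lemma tendsto_uu (q : ℕ) : Filter.Tendsto (uu q) Filter.atTop (nhds 0) := by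
  have h := tendsto_finsetSum (range q) (fun j _ => tendsto_pp j)
  simp only [Finset.sum_const_zero] at h
  exact h

/-- every level in `(0, 1)` is attained by `zz`. -/
lemma exists_zz_eq (q : ℕ) {c : ℝ} (h0 : 0 ≤ c) (h1 : c < 1) :
    ∃ t : ℝ, 0 ≤ t ∧ zz (q + 1) t = c := by
  have hlim : Filter.Tendsto (zz (q + 1)) Filter.atTop (nhds 1) := by
    have h := (tendsto_uu (q + 1)).const_sub 1
    rw [sub_zero] at h
    exact h
  have hev := hlim.eventually (lt_mem_nhds h1)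
  obtain ⟨b, hb, hb0⟩ := (hev.and (Filter.eventually_ge_atTop (0 : ℝ))).exists
  have hcont : ContinuousOn (zz (q + 1)) (Set.Icc 0 b) :=
    fun x _ => (hasDerivAt_zz q x).continuousAt.continuousWithinAt
  have hivt := intermediate_value_Icc hb0 hcont
  have hc : c ∈ Set.Icc (zz (q + 1) 0) (zz (q + 1) b) := by
    rw [zz_zero]; exact ⟨h0, hb.le⟩
  obtain ⟨t, ht, hte⟩ := hivt hc
  exact ⟨t, ht.1, hte⟩

/-- the real time needed to reach internal time `t` -/
noncomputable def TT (d q : ℕ) (t : ℝ) : ℝ := ∫ s in (0 : ℝ)..t, (rate d (zz q |s|))⁻¹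

lemma rate_ge_one (d : ℕ) {z : ℝ} (hz : 0 ≤ z) : 1 ≤ rate (d + 1) z := by
  unfold rate
  rw [Finset.sum_range_succ']
  have : 0 ≤ ∑ k ∈ range d, z ^ (k + 1) := Finset.sum_nonneg (fun k _ => pow_nonneg hz _)
  simp only [pow_zero]
  linarith

lemma rate_mono (d : ℕ) {y z : ℝ} (hy : 0 ≤ y) (hyz : y ≤ z) : rate d y ≤ rate d z :=
  Finset.sum_le_sum (fun k _ => pow_le_pow_left₀ hy hyz k)

lemma hasDerivAt_TT (d q : ℕ) {t : ℝ} (ht : 0 ≤ t) :
    HasDerivAt (TT (d + 1) (q + 1)) ((rate (d + 1) (zz (q + 1) t))⁻¹) t := by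
  have hcont : Continuous (fun s : ℝ => (rate (d + 1) (zz (q + 1) |s|))⁻¹) := by
    apply Continuous.inv₀
    · unfold rate
      have hz : Continuous (zz (q + 1)) :=
        continuous_iff_continuousAt.2 (fun x => (hasDerivAt_zz q x).continuousAt)
      have hz2 : Continuous (fun s : ℝ => zz (q + 1) |s|) := hz.comp continuous_abs
      exact continuous_finsetSum _ (fun k _ => hz2.pow k)
    · intro x
      have := rate_ge_one d (zz_nonneg (q + 1) (abs_nonneg x))
      linarith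
  have h := (hcont.integral_hasStrictDerivAt 0 t).hasDerivAt
  rw [abs_of_nonneg ht] at h
  exact h

lemma TT_zero (d q : ℕ) : TT d q 0 = 0 := by
  unfold TT; simp

end Pool.Agent.Lib.MP_28dd6c_pr
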