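import Pool.Agent.Lib.MP_28dd6c_pr.Expect
import Pool.Agent.Lib.MP_28dd6c_pr.Analysis

/-!
# The internal clock and the two key inequalities
-/

namespace Pool.Agent.Lib.MP_28dd6c_pr

open Finset

lemma TT_slope (d q : ℕ) {s t : ℝ} (hs : 0 ≤ s) (hst : s < t) :
    ∃ c, s < c ∧ c < t ∧ TT (d + 1) (q + 1) t - TT (d + 1) (q + 1) s =
      (rate (d + 1) (zz (q + 1) c))⁻¹ * (t - s) := by
  obtain ⟨c, hc, hce⟩ := exists_hasDerivAt_eq_slope (TT (d + 1) (q + 1))
    (fun x => (rate (d + 1) (zz (q + 1) x))⁻¹) hst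
    (fun x hx => (hasDerivAt_TT d q (hs.trans hx.1)).continuousAt.continuousWithinAt)
    (fun x hx => hasDerivAt_TT d q (hs.trans hx.1.le))
  refine ⟨c, hc.1, hc.2, ?_⟩
  rw [hce]
  field_simp [sub_ne_zero.2 hst.ne']

lemma TT_strictMono (d q : ℕ) {s t : ℝ} (hs : 0 ≤ s) (hst : s < t) :
    TT (d + 1) (q + 1) s < TT (d + 1) (q + 1) t := by
  obtain ⟨c, hc1, hc2, hc⟩ := TT_slope d q hs hst
  have h1 := rate_ge_one d (zz_nonneg (q + 1) (hs.trans hc1.le))
  have h2 : 0 < (rate (d + 1) (zz (q + 1) c))⁻¹ * (t - s) :=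
    mul_pos (inv_pos.2 (by linarith)) (by linarith)
  linarith

/-- the Euler clock never runs ahead. -/
lemma clock_upper (n d q : ℕ) (hn : 0 < n) (i : ℕ) :
    TT (d + 1) (q + 1) (tt n (d + 1) (q + 1) i) ≤ i / n := by
  have hn' : (0 : ℝ) < n := by exact_mod_cast hn
  induction i with
  | zero => simp [tt, TT_zero]
  | succ i ih =>
    have ht0 := tt_nonneg n (d + 1) (q + 1) i
    set t := tt n (d + 1) (q + 1) i with ht
    have hr := rate_ge_one d (zz_nonneg (q + 1) ht0)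
    have e : tt n (d + 1) (q + 1) (i + 1) = t + rate (d + 1) (zz (q + 1) t) / n := rfl
    rw [e]
    have hh : 0 < rate (d + 1) (zz (q + 1) t) / n := div_pos (by linarith) hn'
    obtain ⟨c, hc1, hc2, hc⟩ := TT_slope d q ht0 (lt_add_of_pos_right t hh)
    have hmono : rate (d + 1) (zz (q + 1) t) ≤ rate (d + 1) (zz (q + 1) c) :=
      rate_mono _ (zz_nonneg _ ht0) (zz_mono q ht0 hc1.le)
    have h1 : (rate (d + 1) (zz (q + 1) c))⁻¹ ≤ (rate (d + 1) (zz (q + 1) t))⁻¹ :=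
      inv_anti₀ (by linarith) hmono
    have h2 : (rate (d + 1) (zz (q + 1) c))⁻¹ *
        (t + rate (d + 1) (zz (q + 1) t) / n - t) ≤ 1 / n := by
      rw [add_sub_cancel_left]
      calc _ ≤ (rate (d + 1) (zz (q + 1) t))⁻¹ * (rate (d + 1) (zz (q + 1) t) / n) :=
            mul_le_mul_of_nonneg_right h1 hh.le
        _ = 1 / n := by
            have : rate (d + 1) (zz (q + 1) t) ≠ 0 := by linarith
            field_simp
    push_cast
    rw [add_div]
    linarith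

/-- the Euler clock does not lag much. -/
lemma clock_lower (n d q : ℕ) (hn : 0 < n) (i : ℕ) :
    (i : ℝ) / n * (1 - ((d : ℝ) + 1) ^ 3 / n) ≤
      TT (d + 1) (q + 1) (tt n (d + 1) (q + 1) i) := by
  have hn' : (0 : ℝ) < n := by exact_mod_cast hn
  induction i with
  | zero => simp [tt, TT_zero]
  | succ i ih =>
    have ht0 := tt_nonneg n (d + 1) (q + 1) i
    set t := tt n (d + 1) (q + 1) i with ht
    have hz0 := zz_nonneg (q + 1) ht0
    have hz1 := zz_le_one (q + 1) ht0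
    have hr := rate_ge_one d hz0
    have hr' := rate_le (d + 1) hz0 hz1
    have e : tt n (d + 1) (q + 1) (i + 1) = t + rate (d + 1) (zz (q + 1) t) / n := rfl
    rw [e]
    set ρ := rate (d + 1) (zz (q + 1) t) with hρ
    have hh : 0 < ρ / n := div_pos (by linarith) hn'
    obtain ⟨c, hc1, hc2, hc⟩ := TT_slope d q ht0 (lt_add_of_pos_right t hh)
    have hc0 : 0 ≤ c := ht0.trans hc1.le
    have hlip : zz (q + 1) c - zz (q + 1) t ≤ ρ / n := by
      have := zz_lipschitz q ht0 hc1.le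
      linarith
    have hzc := zz_mono q ht0 hc1.le
    have hrc : rate (d + 1) (zz (q + 1) c) ≤ ρ + ((d : ℝ) + 1) ^ 3 / n := by
      have h1 := rate_lipschitz (d + 1) (zz_nonneg (q + 1) hc0) (zz_le_one (q + 1) hc0) hz0 hz1
      rw [abs_of_nonneg (by linarith : 0 ≤ zz (q + 1) c - zz (q + 1) t)] at h1
      have h2 := (le_abs_self _).trans h1
      have h3 : ((d + 1 : ℕ) : ℝ) ^ 2 * (zz (q + 1) c - zz (q + 1) t) ≤
          ((d : ℝ) + 1) ^ 3 / n := by
        push_cast at hr' ⊢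
        calc ((d : ℝ) + 1) ^ 2 * (zz (q + 1) c - zz (q + 1) t)
            ≤ ((d : ℝ) + 1) ^ 2 * (((d : ℝ) + 1) / n) := by
              apply mul_le_mul_of_nonneg_left _ (by positivity)
              exact hlip.trans (div_le_div_of_nonneg_right hr' hn'.le)
          _ = _ := by ring
      linarith
    have hrc1 : 1 ≤ rate (d + 1) (zz (q + 1) c) := rate_ge_one d (zz_nonneg (q + 1) hc0)
    have h4 : 1 / n * (1 - ((d : ℝ) + 1) ^ 3 / n) ≤
        (rate (d + 1) (zz (q + 1) c))⁻¹ * (t + ρ / n - t) := by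
      rw [add_sub_cancel_left]
      have h5 : 1 - ((d : ℝ) + 1) ^ 3 / n ≤ (rate (d + 1) (zz (q + 1) c))⁻¹ * ρ := by
        rw [inv_mul_eq_div, le_div_iff₀ (by linarith)]
        set x := ((d : ℝ) + 1) ^ 3 / n with hx
        have hx0 : 0 ≤ x := by positivity
        by_cases hx1 : x ≤ 1
        · calc (1 - x) * rate (d + 1) (zz (q + 1) c) ≤ (1 - x) * (ρ + x) :=
                mul_le_mul_of_nonneg_left hrc (by linarith)
            _ ≤ ρ := by nlinarith
        · have : (1 - x) * rate (d + 1) (zz (q + 1) c) ≤ 0 :=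
            mul_nonpos_of_nonpos_of_nonneg (by linarith) (by linarith)
          linarith
      calc 1 / n * (1 - ((d : ℝ) + 1) ^ 3 / n) ≤
            1 / n * ((rate (d + 1) (zz (q + 1) c))⁻¹ * ρ) :=
            mul_le_mul_of_nonneg_left h5 (by positivity)
        _ = _ := by ring
    push_cast
    have e2 : ((i : ℝ) + 1) / n * (1 - ((d : ℝ) + 1) ^ 3 / n) =
        (i : ℝ) / n * (1 - ((d : ℝ) + 1) ^ 3 / n) + 1 / n * (1 - ((d : ℝ) + 1) ^ 3 / n) := by
      ring
    rw [e2]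
    linarith

/-- `1 / rate - u = u z^D / (1 - z^D)`. -/
lemma inv_rate_sub (d q : ℕ) {t : ℝ} (ht : 0 ≤ t) :
    (rate (d + 1) (zz (q + 1) t))⁻¹ - uu (q + 1) t =
      uu (q + 1) t * zz (q + 1) t ^ (d + 1) / (1 - zz (q + 1) t ^ (d + 1)) := by
  have hz0 := zz_nonneg (q + 1) ht
  have hr := rate_ge_one d hz0
  have hm := rate_mul (d + 1) (zz (q + 1) t)
  have hu : 1 - zz (q + 1) t = uu (q + 1) t := by rw [zz_eq]; ring
  have hup := uu_pos q ht
  rw [hu] at hm
  have h1 : 0 < 1 - zz (q + 1) t ^ (d + 1) := by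
    rw [← hm]; exact mul_pos (by linarith) hup
  have h2 : rate (d + 1) (zz (q + 1) t) = (1 - zz (q + 1) t ^ (d + 1)) / uu (q + 1) t := by
    rw [← hm]; field_simp
  rw [h2, inv_div]
  field_simp
  ring

lemma zpow_lt_one (d q : ℕ) {t : ℝ} (ht : 0 ≤ t) : zz (q + 1) t ^ (d + 1) < 1 := by
  have hz0 := zz_nonneg (q + 1) ht
  have hup := uu_pos q ht
  apply pow_lt_one₀ hz0 _ (by omega)
  rw [zz_eq]; linarith

/-- comparison function -/
noncomputable def KK (d : ℕ) (z : ℝ) : ℝ :=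
  -(z / ((d : ℝ) + 1)) * Real.log (1 - z ^ (d + 1)) -
    2 * z ^ (d + 2) / (((d : ℝ) + 1) * ((d : ℝ) + 2))

lemma hasDerivAt_KK (d : ℕ) {z : ℝ} (hz : z ^ (d + 1) < 1) :
    HasDerivAt (KK d) (-(1 / ((d : ℝ) + 1)) * Real.log (1 - z ^ (d + 1)) +
      z ^ (d + 1) / (1 - z ^ (d + 1)) - 2 * z ^ (d + 1) / ((d : ℝ) + 1)) z := by
  have h1 : HasDerivAt (fun x : ℝ => 1 - x ^ (d + 1)) (-(((d + 1 : ℕ) : ℝ) * z ^ d)) z := by
    have := (hasDerivAt_pow (d + 1) z).const_sub 1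
    simpa using this
  have hne : 1 - z ^ (d + 1) ≠ 0 := by linarith
  have h2 := h1.log hne
  have h3 : HasDerivAt (fun x : ℝ => -(x / ((d : ℝ) + 1))) (-(1 / ((d : ℝ) + 1))) z :=
    ((hasDerivAt_id z).div_const ((d : ℝ) + 1)).neg
  have h4 : HasDerivAt (fun x : ℝ => 2 * x ^ (d + 2) / (((d : ℝ) + 1) * ((d : ℝ) + 2)))
      (2 * (((d + 2 : ℕ) : ℝ) * z ^ (d + 1)) / (((d : ℝ) + 1) * ((d : ℝ) + 2))) z := by
    have := ((hasDerivAt_pow (d + 2) z).const_mul 2).div_const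
      (((d : ℝ) + 1) * ((d : ℝ) + 2))
    simpa using this
  have h5 := (h3.mul h2).sub h4
  have h6 : HasDerivAt (KK d) _ z := h5
  refine h6.congr_deriv ?_
  push_cast
  have hd1 : (d : ℝ) + 1 ≠ 0 := by positivity
  have hd2 : (d : ℝ) + 2 ≠ 0 := by positivity
  field_simp
  ring

lemma neg_log_le {x : ℝ} (hx0 : 0 ≤ x) (hx : x ≤ 1 / 2) : -Real.log (1 - x) ≤ 2 * x := by
  have h1 : 0 < 1 - x := by linarith
  have h2 := Real.one_sub_inv_le_log_of_pos h1
  have h3 : (1 - x)⁻¹ ≤ 1 + 2 * x := by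
    rw [inv_le_iff_one_le_mul₀ h1]
    nlinarith
  linarith

lemma KK_zero (d : ℕ) : KK d 0 = 0 := by
  unfold KK; simp

/-- The first key inequality: for `q = r + 1 ≥ 2` and long lists, the clock is slow. -/
lemma key_lower (r : ℕ) (hr : 1 ≤ r) : ∃ d₀ : ℕ, ∀ d ≥ d₀, ∀ t : ℝ, 0 ≤ t →
    zz (r + 1) t ^ (d + 1) = 1 / 2 → ((r + 1 : ℕ) : ℝ) < TT (d + 1) (r + 1) t := by
  -- the time after which `5 u ^ 3 < exp (-2 t)`
  have hlim : Filter.Tendsto (fun t : ℝ => 5 * ((r : ℝ) + 1) ^ 3 *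
      (t ^ (3 * r) * Real.exp (-t))) Filter.atTop (nhds 0) := by
    have := (Real.tendsto_pow_mul_exp_neg_atTop_nhds_zero (3 * r)).const_mul
      (5 * ((r : ℝ) + 1) ^ 3)
    rwa [mul_zero] at this
  have hev := hlim.eventually (gt_mem_nhds (zero_lt_one (α := ℝ)))
  obtain ⟨t₀, ht₀⟩ := Filter.eventually_atTop.1 (hev.and (Filter.eventually_ge_atTop (1 : ℝ)))
  have ht₀1 : 1 ≤ t₀ := (ht₀ t₀ (le_refl _)).2
  have ht₀0 : 0 ≤ t₀ := by linarith
  have hsmall : ∀ t ≥ t₀, 5 * uu (r + 1) t ^ 3 < pp 0 t ^ 2 := by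
    intro t ht
    have h1 := (ht₀ t ht).1
    have ht1 : 1 ≤ t := ht₀1.trans ht
    have h2 : PU (r + 1) t ≤ ((r : ℝ) + 1) * t ^ r := by
      unfold PU
      calc ∑ j ∈ range (r + 1), t ^ j / (j.factorial : ℝ) ≤ ∑ j ∈ range (r + 1), t ^ r := by
            apply Finset.sum_le_sum
            intro j hj
            have hj' : j ≤ r := Nat.lt_succ_iff.1 (mem_range.1 hj)
            have hf : (1 : ℝ) ≤ (j.factorial : ℝ) := by
              exact_mod_cast Nat.succ_le_of_lt (Nat.factorial_pos j)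
            calc t ^ j / (j.factorial : ℝ) ≤ t ^ j / 1 :=
                  div_le_div_of_nonneg_left (by positivity) one_pos hf
              _ = t ^ j := div_one _
              _ ≤ t ^ r := pow_le_pow_right₀ ht1 hj'
        _ = ((r : ℝ) + 1) * t ^ r := by
            rw [Finset.sum_const, Finset.card_range, nsmul_eq_mul]; push_cast; ring
    have h3 : 0 ≤ PU (r + 1) t :=
      Finset.sum_nonneg (fun j _ => by positivity)
    have h4 : PU (r + 1) t ^ 3 ≤ (((r : ℝ) + 1) * t ^ r) ^ 3 := pow_le_pow_left₀ h3 h2 3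
    rw [uu_eq_exp_mul, pp_zero]
    have h5 : (((r : ℝ) + 1) * t ^ r) ^ 3 = ((r : ℝ) + 1) ^ 3 * t ^ (3 * r) := by
      rw [mul_pow, ← pow_mul, mul_comm r 3]
    have h6 : 5 * PU (r + 1) t ^ 3 * Real.exp (-t) < 1 := by
      calc 5 * PU (r + 1) t ^ 3 * Real.exp (-t) ≤
            5 * (((r : ℝ) + 1) * t ^ r) ^ 3 * Real.exp (-t) := by
            apply mul_le_mul_of_nonneg_right _ (Real.exp_pos _).le
            linarith
        _ = 5 * ((r : ℝ) + 1) ^ 3 * (t ^ (3 * r) * Real.exp (-t)) := by rw [h5]; ring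
        _ < 1 := h1
    have he : 0 < Real.exp (-t) ^ 2 := by positivity
    calc 5 * (Real.exp (-t) * PU (r + 1) t) ^ 3 =
          Real.exp (-t) ^ 2 * (5 * PU (r + 1) t ^ 3 * Real.exp (-t)) := by ring
      _ < Real.exp (-t) ^ 2 * 1 := mul_lt_mul_of_pos_left h6 he
      _ = _ := mul_one _
  have hut₀ := uu_pos r ht₀0
  obtain ⟨d₀, hd₀⟩ := exists_nat_gt (1 / uu (r + 1) t₀)
  refine ⟨d₀, ?_⟩
  intro d hd T hT0 hT
  have hdd : (d₀ : ℝ) ≤ d := by exact_mod_cast hd
  have hD : (0 : ℝ) < (d : ℝ) + 1 := by positivity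
  have hz0 := zz_nonneg (r + 1) hT0
  have hup := uu_pos r hT0
  have hzu : zz (r + 1) T = 1 - uu (r + 1) T := zz_eq _ _
  -- (i) D u ≤ log 2
  have hzpos : 0 < zz (r + 1) T := by
    rcases hz0.eq_or_lt with h | h
    · rw [← h] at hT
      rw [zero_pow (by omega)] at hT
      norm_num at hT
    · exact h
  have hlog : ((d : ℝ) + 1) * uu (r + 1) T ≤ Real.log 2 := by
    have h1 := Real.log_le_sub_one_of_pos hzpos
    have h2 : ((d + 1 : ℕ) : ℝ) * Real.log (zz (r + 1) T) = -Real.log 2 := by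
      rw [← Real.log_pow, hT, one_div, Real.log_inv]
    push_cast at h2
    rw [hzu] at h1
    have h3 : ((d : ℝ) + 1) * Real.log (zz (r + 1) T) ≤
        ((d : ℝ) + 1) * (-uu (r + 1) T) := by
      apply mul_le_mul_of_nonneg_left _ hD.le
      rw [hzu]; linarith
    linarith
  -- T > t₀
  have hTt₀ : t₀ ≤ T := by
    by_contra hcon
    push Not at hcon
    have h1 := uu_antitone r hT0 hcon.le
    have h2 : Real.log 2 < 1 := by
      have := Real.log_two_lt_d9
      linarith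
    have h3 : 1 < d₀ * uu (r + 1) t₀ := by
      rwa [div_lt_iff₀ hut₀] at hd₀
    have h4 : (d₀ : ℝ) * uu (r + 1) t₀ ≤ ((d : ℝ) + 1) * uu (r + 1) T :=
      mul_le_mul (by linarith) h1 hut₀.le hD.le
    linarith
  have hTpos : 0 < T := by linarith
  -- (ii) u ≥ 1 / (2 D)
  have hbern : 1 / (2 * ((d : ℝ) + 1)) ≤ uu (r + 1) T := by
    by_contra hcon
    push Not at hcon
    have h1 : 1 - 1 / (2 * ((d : ℝ) + 1)) < zz (r + 1) T := by rw [hzu]; linarith
    have hle1 : 1 / (2 * ((d : ℝ) + 1)) ≤ 1 / 2 := by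
      apply one_div_le_one_div_of_le (by norm_num)
      have : (0 : ℝ) ≤ d := Nat.cast_nonneg d
      linarith
    have h2 := one_add_mul_le_pow (a := -(1 / (2 * ((d : ℝ) + 1)))) (by linarith) (d + 1)
    have h3 : 1 + ((d + 1 : ℕ) : ℝ) * -(1 / (2 * ((d : ℝ) + 1))) = 1 / 2 := by
      push_cast
      field_simp
      norm_num
    rw [h3] at h2
    have h4 : (1 + -(1 / (2 * ((d : ℝ) + 1)))) ^ (d + 1) < zz (r + 1) T ^ (d + 1) := by
      apply pow_lt_pow_left₀ (by linarith) (by linarith) (by omega)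
    rw [hT] at h4
    linarith
  have hppos : 0 < pp r T := by unfold pp; positivity
  -- the comparison function
  set c := uu (r + 1) T / pp r T with hc
  have hc0 : 0 ≤ c := by positivity
  have hmono : MonotoneOn (fun s => TT (d + 1) (r + 1) s - (((r + 1 : ℕ) : ℝ) - UU (r + 1) s) -
      c * KK d (zz (r + 1) s)) (Set.Icc 0 T) := by
    have hder : ∀ s ∈ Set.Icc (0 : ℝ) T,
        HasDerivAt (fun s => TT (d + 1) (r + 1) s - (((r + 1 : ℕ) : ℝ) - UU (r + 1) s) -
          c * KK d (zz (r + 1) s))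
        ((rate (d + 1) (zz (r + 1) s))⁻¹ - uu (r + 1) s -
          c * ((-(1 / ((d : ℝ) + 1)) * Real.log (1 - zz (r + 1) s ^ (d + 1)) +
      zz (r + 1) s ^ (d + 1) / (1 - zz (r + 1) s ^ (d + 1)) -
        2 * zz (r + 1) s ^ (d + 1) / ((d : ℝ) + 1)) * pp r s)) s := by
      intro s hs
      have h1 := hasDerivAt_TT d r hs.1
      have h2 := (hasDerivAt_UU (r + 1) s).const_sub ((r + 1 : ℕ) : ℝ)
      have h3 := ((hasDerivAt_KK d (zpow_lt_one d r hs.1)).comp s
        (hasDerivAt_zz r s)).const_mul c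
      have h4 := (h1.sub h2).sub h3
      refine HasDerivAt.congr_deriv h4 ?_
      ring
    apply monotoneOn_of_deriv_nonneg (convex_Icc 0 T)
    · exact fun s hs => (hder s hs).continuousAt.continuousWithinAt
    · intro s hs
      exact (hder s (interior_subset hs)).differentiableAt.differentiableWithinAt
    · intro s hs
      have hs' := interior_subset hs
      rw [(hder s hs').deriv, inv_rate_sub d r hs'.1]
      have hzs0 := zz_nonneg (r + 1) hs'.1
      have hx1 : zz (r + 1) s ^ (d + 1) ≤ 1 / 2 := by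
        rw [← hT]
        exact pow_le_pow_left₀ hzs0 (zz_mono r hs'.1 hs'.2) _
      set x := zz (r + 1) s ^ (d + 1) with hx
      have hx0 : 0 ≤ x := by positivity
      have hnl := neg_log_le hx0 hx1
      have hps : 0 ≤ pp r s := pp_nonneg r hs'.1
      have hw : 0 ≤ x / (1 - x) := div_nonneg hx0 (by linarith)
      have h5 : -(1 / ((d : ℝ) + 1)) * Real.log (1 - x) + x / (1 - x) -
          2 * x / ((d : ℝ) + 1) ≤ x / (1 - x) := by
        have h6 : -(1 / ((d : ℝ) + 1)) * Real.log (1 - x) ≤ 2 * x / ((d : ℝ) + 1) := by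
          calc -(1 / ((d : ℝ) + 1)) * Real.log (1 - x) =
                (-Real.log (1 - x)) / ((d : ℝ) + 1) := by ring
            _ ≤ 2 * x / ((d : ℝ) + 1) := div_le_div_of_nonneg_right hnl hD.le
        linarith
      have h7 : c * ((-(1 / ((d : ℝ) + 1)) * Real.log (1 - x) + x / (1 - x) -
          2 * x / ((d : ℝ) + 1)) * pp r s) ≤ (x / (1 - x)) * (c * pp r s) := by
        calc _ = (-(1 / ((d : ℝ) + 1)) * Real.log (1 - x) + x / (1 - x) -
          2 * x / ((d : ℝ) + 1)) * (c * pp r s) := by ring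
          _ ≤ _ := mul_le_mul_of_nonneg_right h5 (mul_nonneg hc0 hps)
      have h8 : c * pp r s ≤ uu (r + 1) s := by
        rw [hc, div_mul_eq_mul_div, div_le_iff₀ hppos]
        exact uu_mul_pp r hs'.1 hs'.2
      have h9 : (x / (1 - x)) * (c * pp r s) ≤ (x / (1 - x)) * uu (r + 1) s :=
        mul_le_mul_of_nonneg_left h8 hw
      have h10 : uu (r + 1) s * x / (1 - x) = (x / (1 - x)) * uu (r + 1) s := by ring
      rw [h10]
      linarith
  have hcmp := hmono ⟨le_refl _, hT0⟩ ⟨hT0, le_refl _⟩ hT0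
  simp only [TT_zero, UU_zero, zz_zero, KK_zero, sub_self, mul_zero] at hcmp
  -- value of K at the end
  have hKK : KK d (zz (r + 1) T) = zz (r + 1) T / ((d : ℝ) + 1) *
      (Real.log 2 - 1 / ((d : ℝ) + 2)) := by
    unfold KK
    rw [pow_succ (zz (r + 1) T) (d + 1), hT]
    have : (1 : ℝ) - 1 / 2 = 2⁻¹ := by norm_num
    rw [this, Real.log_inv]
    field_simp
  have hKlow : uu (r + 1) T * (1 - 5 * uu (r + 1) T) ≤ KK d (zz (r + 1) T) := by
    rw [hKK]
    set u := uu (r + 1) T with hu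
    have hz1 : zz (r + 1) T ≤ 1 := zz_le_one _ hT0
    have h1 : u ≤ Real.log 2 / ((d : ℝ) + 1) := by
      rw [le_div_iff₀ hD]; linarith
    have h2 : 1 / (((d : ℝ) + 1) * ((d : ℝ) + 2)) ≤ 4 * u ^ 2 := by
      have h3 : (1 / (2 * ((d : ℝ) + 1))) ^ 2 ≤ u ^ 2 :=
        pow_le_pow_left₀ (by positivity) hbern 2
      have h4 : 1 / (((d : ℝ) + 1) * ((d : ℝ) + 2)) ≤
          1 / (((d : ℝ) + 1) * ((d : ℝ) + 1)) := by
        apply one_div_le_one_div_of_le (by positivity)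
        nlinarith
      have h5 : (1 / (2 * ((d : ℝ) + 1))) ^ 2 = 1 / (((d : ℝ) + 1) * ((d : ℝ) + 1)) / 4 := by
        field_simp
        norm_num
      rw [h5] at h3
      linarith
    have h6 : zz (r + 1) T / ((d : ℝ) + 1) * (Real.log 2 - 1 / ((d : ℝ) + 2)) =
        zz (r + 1) T * (Real.log 2 / ((d : ℝ) + 1)) -
          zz (r + 1) T * (1 / (((d : ℝ) + 1) * ((d : ℝ) + 2))) := by
      field_simp
    rw [h6]
    have h7 : zz (r + 1) T * u ≤ zz (r + 1) T * (Real.log 2 / ((d : ℝ) + 1)) :=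
      mul_le_mul_of_nonneg_left h1 hz0
    have h8 : zz (r + 1) T * (1 / (((d : ℝ) + 1) * ((d : ℝ) + 2))) ≤ 1 * (4 * u ^ 2) :=
      mul_le_mul hz1 h2 (by positivity) zero_le_one
    rw [hzu] at h7 h8 ⊢
    nlinarith
  -- conclusion
  have hlc := (logconcave r hT0).2 hr
  have hsm := hsmall T hTt₀
  have hfin : UU (r + 1) T < c * KK d (zz (r + 1) T) := by
    have h1 : c * (uu (r + 1) T * (1 - 5 * uu (r + 1) T)) ≤ c * KK d (zz (r + 1) T) :=
      mul_le_mul_of_nonneg_left hKlow hc0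
    refine lt_of_lt_of_le ?_ h1
    rw [hc, div_mul_eq_mul_div, lt_div_iff₀ hppos]
    nlinarith
  push_cast at hcmp ⊢
  linarith

end Pool.Agent.Lib.MP_28dd6c_pr
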