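import Pool.Agent.Lib.MP_28dd6c_pr.Defs

/-!
# One step of the process: which school is chosen
-/

namespace Pool.Agent.Lib.MP_28dd6c_pr

open Finset

variable {n d : ℕ}

/-- The school chosen by a student with list `L` at occupancy `o`, if any. -/
def choice (q : ℕ) (o : Fin n → ℕ) (L : PrefList n d) : Option (Fin n) :=
  if h : ∃ j : Fin d, o (L j) < q then some (L (Fin.find (fun j => o (L j) < q) h)) else none

lemma choice_eq_none_iff (q : ℕ) (o : Fin n → ℕ) (L : PrefList n d) :
    choice q o L = none ↔ ∀ j, q ≤ o (L j) := by
  unfold choice
  split_ifs with h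
  · simp only [false_iff, not_forall, not_le]
    exact h
  · simp only [true_iff]
    push Not at h
    exact h

lemma lt_of_choice_eq_some {q : ℕ} {o : Fin n → ℕ} {L : PrefList n d} {v : Fin n}
    (h : choice q o L = some v) : o v < q := by
  unfold choice at h
  split_ifs at h with h'
  simp only [Option.some.injEq] at h
  rw [← h]
  exact Fin.find_spec (p := fun j => o (L j) < q) h'

lemma step_of_choice_eq_some {q : ℕ} {o : Fin n → ℕ} {L : PrefList n d} {v : Fin n}
    (h : choice q o L = some v) : step q o L = Function.update o v (o v + 1) := by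
  unfold choice at h
  unfold step
  split_ifs at h with h'
  simp only [Option.some.injEq] at h
  rw [dif_pos h', h]

lemma step_of_choice_eq_none {q : ℕ} {o : Fin n → ℕ} {L : PrefList n d}
    (h : choice q o L = none) : step q o L = o := by
  unfold choice at h
  unfold step
  split_ifs at h with h'
  rw [dif_neg h']

lemma choice_swap {q : ℕ} {o : Fin n → ℕ} {L : PrefList n d} {v w : Fin n}
    (hv : o v < q) (hw : o w < q) :
    choice q o (L.trans (Equiv.swap v w).toEmbedding) = (choice q o L).map (Equiv.swap v w) := by
  have key : ∀ x : Fin n, o (Equiv.swap v w x) < q ↔ o x < q := by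
    intro x
    by_cases h1 : x = v
    · subst h1; simp [hv, hw]
    · by_cases h2 : x = w
      · subst h2; simp [hv, hw]
      · rw [Equiv.swap_apply_of_ne_of_ne h1 h2]
  unfold choice
  by_cases h : ∃ j : Fin d, o (L j) < q
  · have h' : ∃ j : Fin d, o ((L.trans (Equiv.swap v w).toEmbedding) j) < q := by
      obtain ⟨j, hj⟩ := h
      exact ⟨j, (key _).2 hj⟩
    rw [dif_pos h, dif_pos h']
    simp only [Option.map_some, Option.some.injEq]
    have hf : Fin.find (fun j => o ((L.trans (Equiv.swap v w).toEmbedding) j) < q) h'
        = Fin.find (fun j => o (L j) < q) h := by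
      rw [Fin.find_eq_iff]
      constructor
      · exact (key _).2 (Fin.find_spec (p := fun j => o (L j) < q) h)
      · intro j hj hj2
        exact Fin.find_min (p := fun j => o (L j) < q) h hj ((key _).1 hj2)
    rw [hf]
    rfl
  · have h' : ¬ ∃ j : Fin d, o ((L.trans (Equiv.swap v w).toEmbedding) j) < q := by
      rintro ⟨j, hj⟩
      exact h ⟨j, (key _).1 hj⟩
    rw [dif_neg h, dif_neg h']
    rfl

lemma card_choice_some_eq {q : ℕ} {o : Fin n → ℕ} {v w : Fin n}
    (hv : o v < q) (hw : o w < q) :
    (univ.filter fun L : PrefList n d => choice q o L = some v).card =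
    (univ.filter fun L : PrefList n d => choice q o L = some w).card := by
  apply Finset.card_bij (fun L _ => L.trans (Equiv.swap v w).toEmbedding)
  · intro L hL
    simp only [mem_filter, mem_univ, true_and] at hL ⊢
    rw [choice_swap hv hw, hL]
    simp
  · intro L₁ _ L₂ _ h
    ext j
    have := DFunLike.congr_fun h j
    simp only [Function.Embedding.trans_apply, Equiv.coe_toEmbedding,
      EmbeddingLike.apply_eq_iff_eq] at this
    rw [this]
  · intro L hL
    simp only [mem_filter, mem_univ, true_and] at hL
    refine ⟨L.trans (Equiv.swap v w).toEmbedding, ?_, ?_⟩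
    · simp only [mem_filter, mem_univ, true_and]
      rw [choice_swap hv hw, hL]
      simp
    · ext j
      simp

/-- The set of full schools. -/
def full (q : ℕ) (o : Fin n → ℕ) : Finset (Fin n) := univ.filter fun v => q ≤ o v

lemma card_choice_none (q : ℕ) (o : Fin n → ℕ) :
    (univ.filter fun L : PrefList n d => choice q o L = none).card =
      (full q o).card.descFactorial d := by
  have h1 : Fintype.card (Fin d ↪ (full q o)) = (full q o).card.descFactorial d := by
    rw [Fintype.card_embedding_eq]
    simp
  rw [← h1, ← Finset.card_univ]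
  symm
  apply Finset.card_bij (fun (e : Fin d ↪ (full q o)) _ =>
    e.trans (Function.Embedding.subtype (fun x => x ∈ full q o)))
  · intro e _
    simp only [mem_filter, mem_univ, true_and]
    rw [choice_eq_none_iff]
    intro j
    have := (e j).2
    simp only [full, mem_filter, mem_univ, true_and] at this
    exact this
  · intro e₁ _ e₂ _ h
    ext j
    have := DFunLike.congr_fun h j
    simp only [Function.Embedding.trans_apply, Function.Embedding.coe_subtype] at this
    rw [this]
  · intro L hL
    simp only [mem_filter, mem_univ, true_and] at hL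
    rw [choice_eq_none_iff] at hL
    refine ⟨⟨fun j => ⟨L j, by simp [full, hL j]⟩, ?_⟩, mem_univ _, ?_⟩
    · intro a b hab
      exact L.injective (congrArg Subtype.val hab)
    · ext j
      rfl

lemma card_preflist : Fintype.card (PrefList n d) = n.descFactorial d := by
  rw [Fintype.card_embedding_eq]
  simp

/-- Summation over all lists of a function of the chosen school. -/
lemma sum_choice (q : ℕ) (o : Fin n → ℕ) (g : Fin n → ℝ) :
    ∃ c : ℝ, 0 ≤ c ∧
      ((n : ℝ) - (full q o).card) * c =
        (n.descFactorial d : ℝ) - ((full q o).card.descFactorial d : ℝ) ∧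
      (∑ L : PrefList n d, ((choice q o L).elim 0 g)) =
        c * ∑ v ∈ univ.filter (fun v => o v < q), g v := by
  classical
  -- the common value
  have hcv : ∃ c : ℕ, ∀ v, o v < q →
      (univ.filter fun L : PrefList n d => choice q o L = some v).card = c := by
    by_cases h : ∃ v, o v < q
    · obtain ⟨v₀, hv₀⟩ := h
      exact ⟨_, fun v hv => card_choice_some_eq hv hv₀⟩
    · exact ⟨0, fun v hv => absurd ⟨v, hv⟩ h⟩
  obtain ⟨c, hc⟩ := hcv
  have hsum : ∀ f : Fin n → ℝ, (∑ L : PrefList n d, ((choice q o L).elim 0 f)) =
        c * ∑ v ∈ univ.filter (fun v => o v < q), f v := by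
    intro f
    have h1 : ∀ L : PrefList n d, ((choice q o L).elim 0 f) =
        ∑ v ∈ univ.filter (fun v => o v < q), if choice q o L = some v then f v else 0 := by
      intro L
      rcases hL : choice q o L with _ | v
      · simp
      · have hv := lt_of_choice_eq_some hL
        simp only [Option.elim_some, Option.some.injEq]
        rw [Finset.sum_ite_eq]
        simp [hv]
    rw [Finset.sum_congr rfl (fun L _ => h1 L), Finset.sum_comm, Finset.mul_sum]
    refine Finset.sum_congr rfl ?_
    intro v hv
    simp only [mem_filter, mem_univ, true_and] at hv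
    rw [← Finset.sum_filter, Finset.sum_const, hc v hv, nsmul_eq_mul]
  refine ⟨c, Nat.cast_nonneg c, ?_, hsum g⟩
  have h2 := hsum (fun _ => 1)
  have h3 : ((univ.filter (fun v : Fin n => o v < q)).card : ℝ) = (n : ℝ) - (full q o).card := by
    have : (univ.filter (fun v : Fin n => o v < q)).card + (full q o).card = n := by
      have h4 := Finset.card_filter_add_card_filter_not (s := (univ : Finset (Fin n)))
        (p := fun v => o v < q)
      simp only [card_univ, Fintype.card_fin, not_lt] at h4
      exact h4
    have h5 : ((univ.filter (fun v : Fin n => o v < q)).card : ℝ) + ((full q o).card : ℝ) = n := by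
      exact_mod_cast this
    linarith
  have h6 : (∑ L : PrefList n d, ((choice q o L).elim (0 : ℝ) (fun _ => 1))) =
      (n.descFactorial d : ℝ) - ((full q o).card.descFactorial d : ℝ) := by
    have h7 : ∀ L : PrefList n d, ((choice q o L).elim (0 : ℝ) (fun _ => 1)) =
        1 - (if choice q o L = none then 1 else 0) := by
      intro L
      rcases choice q o L with _ | v <;> simp
    rw [Finset.sum_congr rfl (fun L _ => h7 L), Finset.sum_sub_distrib, Finset.sum_boole,
      card_choice_none]
    simp
  rw [h6] at h2
  rw [h2]
  simp only [sum_const, nsmul_eq_mul, mul_one]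
  rw [h3]
  ring

end Pool.Agent.Lib.MP_28dd6c_pr
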