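import Mathlib

/-!
# Serial dictatorship with multi-seat schools: the model

There are `n` schools (the elements of `Fin n`), each with `q` seats.  A student's preference
list is an injection `L : Fin d ↪ Fin n`: the schools `L 0, L 1, …, L (d - 1)` are distinct and
`L 0` is ranked highest.
-/

namespace Pool.Agent.Lib.MP_28dd6c_pr

/-- A preference list of length `d` over `n` schools: `d` distinct schools in ranked order
(the school with index `0` is the highest ranked one). -/
abbrev PrefList (n d : ℕ) := Fin d ↪ Fin n

/-- One student with preference list `L` acts while `o s` seats of school `s` are occupied
(for every school `s`): if some school on the list has a free seat, then the student takes a seat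
at the highest ranked such school; otherwise nothing changes. -/
def step (q : ℕ) {n d : ℕ} (o : Fin n → ℕ) (L : PrefList n d) : Fin n → ℕ :=
  if h : ∃ j : Fin d, o (L j) < q then
    Function.update o (L (Fin.find (fun j => o (L j) < q) h))
      (o (L (Fin.find (fun j => o (L j) < q) h)) + 1)
  else o

/-- `occ q i L s` is the number of occupied seats of school `s` after the first `i` students,
with preference lists `L 0, …, L (i - 1)`, have acted in this order. -/
def occ (q : ℕ) {n d : ℕ} : (i : ℕ) → (Fin i → PrefList n d) → Fin n → ℕ
  | 0, _ => fun _ => 0
  | i + 1, L => step q (occ q i (fun k => L k.castSucc)) (L (Fin.last i))

/-- For `i ≥ 1`: student number `i` is matched, when the first `i` students have the preference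
lists `L 0, …, L (i - 1)` (so `L (i - 1)` is the list of student number `i`), that is, some
school on the list of student number `i` has a free seat after the first `i - 1` students have
acted. -/
def Matched (q : ℕ) {n d : ℕ} : (i : ℕ) → (Fin i → PrefList n d) → Prop
  | 0, _ => False
  | i + 1, L => ∃ j : Fin d, occ q i (fun k => L k.castSucc) (L (Fin.last i) j) < q

open Classical in
/-- The probability that student number `i` is matched when there are `n` schools with `q` seats
each and the students have independent uniformly random preference lists of length `d`: the
number of profiles of lists of the first `i` students for which student number `i` is matched,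
divided by the number of all such profiles. -/
noncomputable def matchProb (n d q i : ℕ) : ℝ :=
  ((Finset.univ.filter fun L : Fin i → PrefList n d => Matched q i L).card : ℝ) /
    (Fintype.card (Fin i → PrefList n d) : ℝ)

end Pool.Agent.Lib.MP_28dd6c_pr
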