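import Pool.Agent.Lib.MP_28dd6c_pr.Comb

/-!
# The drift of the occupancy profile
-/

namespace Pool.Agent.Lib.MP_28dd6c_pr

open Finset

variable {n d : ℕ}

/-- `(F)_k / (n)_k` is close to `(F / n) ^ k`. -/
lemma ratio_bound (n F : ℕ) (hF : F ≤ n) (hn : 0 < n) (k : ℕ) (hk : 2 * k ≤ n) :
    |((F : ℝ) / n) ^ k - (F.descFactorial k : ℝ) / (n.descFactorial k : ℝ)| ≤
      (1 - (F : ℝ) / n) * (2 * (k : ℝ) ^ 2 / n) := by
  have hn' : (0 : ℝ) < n := by exact_mod_cast hn
  have hz0 : 0 ≤ (F : ℝ) / n := by positivity
  have hz1 : (F : ℝ) / n ≤ 1 := by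
    rw [div_le_one hn']; exact_mod_cast hF
  induction k with
  | zero => simp
  | succ k ih =>
    have ih' := ih (by omega)
    rw [Nat.descFactorial_succ, Nat.descFactorial_succ]
    push_cast
    have hkn : k < n := by omega
    have hnk : (0 : ℝ) < ((n - k : ℕ) : ℝ) := by
      exact_mod_cast (Nat.sub_pos_of_lt hkn)
    have hnkdef : ((n - k : ℕ) : ℝ) = (n : ℝ) - k := by
      rw [Nat.cast_sub hkn.le]
    have hdpos : (0 : ℝ) < (n.descFactorial k : ℝ) := by
      have := Nat.descFactorial_pos (n := n) (k := k)
      exact_mod_cast (Nat.pos_of_ne_zero (by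
        intro h0
        rw [Nat.descFactorial_eq_zero_iff_lt] at h0
        omega))
    have hpi0 : 0 ≤ (F.descFactorial k : ℝ) / (n.descFactorial k : ℝ) := by positivity
    have hpi1 : (F.descFactorial k : ℝ) / (n.descFactorial k : ℝ) ≤ 1 := by
      rw [div_le_one hdpos]
      exact_mod_cast Nat.descFactorial_le k hF
    set π := (F.descFactorial k : ℝ) / (n.descFactorial k : ℝ) with hπ
    set z := (F : ℝ) / n with hz
    have hfrac : |z - ((F - k : ℕ) : ℝ) / ((n - k : ℕ) : ℝ)| ≤ (1 - z) * (2 * k / n) := by
      have hknr : (2 : ℝ) * k ≤ n := by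
        have : 2 * k ≤ n := by omega
        exact_mod_cast this
      have hFr : (F : ℝ) ≤ n := by exact_mod_cast hF
      have hk0 : (0 : ℝ) ≤ k := Nat.cast_nonneg k
      have hstep : (1 - z) * ((k : ℝ) / ((n : ℝ) - k)) ≤ (1 - z) * (2 * k / n) := by
        apply mul_le_mul_of_nonneg_left _ (by linarith)
        rw [div_le_div_iff₀ (by linarith [hnkdef ▸ hnk]) hn']
        nlinarith
      refine le_trans ?_ hstep
      rw [hnkdef] at hnk ⊢
      by_cases hFk : k ≤ F
      · rw [Nat.cast_sub hFk]
        have h1 : z - ((F : ℝ) - k) / ((n : ℝ) - k) = (1 - z) * ((k : ℝ) / ((n : ℝ) - k)) := by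
          rw [hz]
          field_simp
          ring
        rw [h1, abs_of_nonneg]
        exact mul_nonneg (by linarith) (by positivity)
      · push Not at hFk
        have h2 : F - k = 0 := by omega
        rw [h2]
        simp only [Nat.cast_zero, zero_div, sub_zero]
        rw [abs_of_nonneg hz0, hz]
        have hFkr : (F : ℝ) ≤ k := by exact_mod_cast hFk.le
        rw [show (1 - (F : ℝ) / n) * ((k : ℝ) / ((n : ℝ) - k)) =
          (((n : ℝ) - F) * k) / (n * ((n : ℝ) - k)) by field_simp]
        rw [div_le_div_iff₀ hn' (by positivity)]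
        have : (F : ℝ) * ((n : ℝ) - k) ≤ ((n : ℝ) - F) * k := by nlinarith
        nlinarith
    have hsplit : z ^ (k + 1) - ((F - k : ℕ) : ℝ) * (F.descFactorial k : ℝ) /
        (((n - k : ℕ) : ℝ) * (n.descFactorial k : ℝ)) =
        z * (z ^ k - π) + (z - ((F - k : ℕ) : ℝ) / ((n - k : ℕ) : ℝ)) * π := by
      rw [hπ, mul_div_mul_comm]
      ring
    rw [hsplit]
    calc |z * (z ^ k - π) + (z - ((F - k : ℕ) : ℝ) / ((n - k : ℕ) : ℝ)) * π|
        ≤ |z * (z ^ k - π)| + |(z - ((F - k : ℕ) : ℝ) / ((n - k : ℕ) : ℝ)) * π| := abs_add_le _ _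
      _ = z * |z ^ k - π| + |z - ((F - k : ℕ) : ℝ) / ((n - k : ℕ) : ℝ)| * π := by
          rw [abs_mul, abs_mul, abs_of_nonneg hz0, abs_of_nonneg hpi0]
      _ ≤ 1 * ((1 - z) * (2 * (k : ℝ) ^ 2 / n)) + ((1 - z) * (2 * k / n)) * 1 := by
          apply add_le_add
          · exact mul_le_mul hz1 ih' (abs_nonneg _) zero_le_one
          · apply mul_le_mul hfrac hpi1 hpi0
            exact mul_nonneg (by linarith) (by positivity)
      _ ≤ (1 - z) * (2 * ((k : ℝ) + 1) ^ 2 / n) := by
          rw [one_mul, mul_one, ← mul_add]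
          apply mul_le_mul_of_nonneg_left _ (by linarith)
          rw [← add_div]
          apply div_le_div_of_nonneg_right _ hn'.le
          nlinarith [Nat.cast_nonneg (α := ℝ) k]

/-- fraction of schools with exactly `j` occupied seats. -/
noncomputable def frac (o : Fin n → ℕ) (j : ℕ) : ℝ :=
  ((univ.filter fun v => o v = j).card : ℝ) / n

/-- previous-class fraction. -/
noncomputable def prevf (x : ℕ → ℝ) (j : ℕ) : ℝ := if j = 0 then 0 else x (j - 1)

/-- average over the lists. -/
noncomputable def avg (n d : ℕ) (f : PrefList n d → ℝ) : ℝ :=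
  (∑ L, f L) / (n.descFactorial d : ℝ)

/-- fraction of full schools. -/
noncomputable def zf (q : ℕ) (o : Fin n → ℕ) : ℝ := ((full q o).card : ℝ) / n

lemma sum_frac (q : ℕ) (hn : 0 < n) (o : Fin n → ℕ) :
    (∑ j ∈ range q, frac o j) = 1 - zf q o := by
  have hn' : (0 : ℝ) < n := by exact_mod_cast hn
  unfold frac zf
  rw [← Finset.sum_div, eq_sub_iff_add_eq, ← add_div, div_eq_one_iff_eq hn'.ne']
  have h : (∑ j ∈ range q, (univ.filter fun v => o v = j).card) + (full q o).card = n := by
    have h1 : (∑ j ∈ range q, (univ.filter fun v => o v = j).card) =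
        (univ.filter fun v => o v < q).card := by
      rw [Finset.card_eq_sum_card_fiberwise (f := o) (t := range q)]
      · refine Finset.sum_congr rfl ?_
        intro j hj
        congr 1
        ext v
        simp only [mem_filter, mem_univ, true_and, mem_range] at hj ⊢
        constructor
        · intro h; exact ⟨h ▸ hj, h⟩
        · intro h; exact h.2
      · intro v hv
        simpa using hv
    rw [h1]
    have h4 := Finset.card_filter_add_card_filter_not (s := (univ : Finset (Fin n)))
        (p := fun v => o v < q)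
    simp only [card_univ, Fintype.card_fin, not_lt] at h4
    exact h4
  exact_mod_cast h

lemma frac_nonneg (o : Fin n → ℕ) (j : ℕ) : 0 ≤ frac o j := by
  unfold frac; positivity

lemma frac_le_one (hn : 0 < n) (o : Fin n → ℕ) (j : ℕ) : frac o j ≤ 1 := by
  have hn' : (0 : ℝ) < n := by exact_mod_cast hn
  unfold frac
  rw [div_le_one hn']
  have := Finset.card_le_univ (univ.filter fun v => o v = j)
  simp only [Fintype.card_fin] at this
  exact_mod_cast this

lemma zf_nonneg (q : ℕ) (o : Fin n → ℕ) : 0 ≤ zf q o := by
  unfold zf; positivity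

lemma zf_le_one (hn : 0 < n) (q : ℕ) (o : Fin n → ℕ) : zf q o ≤ 1 := by
  have hn' : (0 : ℝ) < n := by exact_mod_cast hn
  unfold zf
  rw [div_le_one hn']
  have := Finset.card_le_univ (full q o)
  simp only [Fintype.card_fin] at this
  exact_mod_cast this

/-- change of the class-`j` fraction when a seat at `v` is taken -/
lemma frac_update (o : Fin n → ℕ) (v : Fin n) (j : ℕ) :
    frac (Function.update o v (o v + 1)) j - frac o j =
      ((if o v + 1 = j then 1 else 0) - (if o v = j then 1 else 0)) / (n : ℝ) := by
  unfold frac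
  rw [← sub_div]
  congr 1
  rw [Finset.card_filter, Finset.card_filter]
  push_cast
  rw [← Finset.sum_sub_distrib]
  rw [Finset.sum_eq_single v]
  · simp
  · intro w _ hw
    rw [Function.update_of_ne hw]
    simp
  · intro h; exact absurd (mem_univ v) h

lemma frac_step (q : ℕ) (o : Fin n → ℕ) (L : PrefList n d) (j : ℕ) :
    frac (step q o L) j - frac o j =
      (choice q o L).elim 0
        (fun v => ((if o v + 1 = j then 1 else 0) - (if o v = j then 1 else 0)) / (n : ℝ)) := by
  rcases h : choice q o L with _ | v
  · rw [step_of_choice_eq_none h]; simp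
  · rw [step_of_choice_eq_some h]; exact frac_update o v j

lemma abs_frac_step_le (hn : 0 < n) (q : ℕ) (o : Fin n → ℕ) (L : PrefList n d) (j : ℕ) :
    |frac (step q o L) j - frac o j| ≤ 1 / n := by
  have hn' : (0 : ℝ) < n := by exact_mod_cast hn
  rw [frac_step]
  rcases choice q o L with _ | v
  · simp
  · simp only [Option.elim_some]
    rw [abs_div, abs_of_pos hn']
    apply div_le_div_of_nonneg_right _ hn'.le
    split_ifs <;> simp

/-- the geometric-sum rate `1 + z + ⋯ + z ^ (d - 1)`. -/
noncomputable def rate (d : ℕ) (z : ℝ) : ℝ := ∑ k ∈ range d, z ^ k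

lemma rate_mul (d : ℕ) (z : ℝ) : rate d z * (1 - z) = 1 - z ^ d := by
  unfold rate
  have := geom_sum_mul z d
  linarith

/-- The mean change of the class-`j` fraction in one step. -/
lemma avg_frac_step (q : ℕ) (hn : 0 < n) (hd : 2 * d ≤ n) (o : Fin n → ℕ) (j : ℕ) (hj : j < q) :
    |avg n d (fun L => frac (step q o L) j - frac o j) -
      rate d (zf q o) * (prevf (frac o) j - frac o j) / n| ≤ 2 * (d : ℝ) ^ 2 / n ^ 2 := by
  have hn' : (0 : ℝ) < n := by exact_mod_cast hn
  have hdn : d ≤ n := by omega
  have hcard : (0 : ℝ) < (n.descFactorial d : ℝ) := by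
    exact_mod_cast (Nat.pos_of_ne_zero (by
        intro h0
        rw [Nat.descFactorial_eq_zero_iff_lt] at h0
        omega))
  set g : Fin n → ℝ := fun v =>
    ((if o v + 1 = j then 1 else 0) - (if o v = j then 1 else 0)) / (n : ℝ) with hg
  obtain ⟨c, hc0, hc1, hc2⟩ := sum_choice (d := d) q o g
  have hsumg : (∑ v ∈ univ.filter (fun v => o v < q), g v) = prevf (frac o) j - frac o j := by
    rw [hg, ← Finset.sum_div, Finset.sum_sub_distrib, sub_div]
    congr 1
    · unfold prevf frac
      split_ifs with hj0
      · subst hj0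
        simp
      · congr 1
        rw [Finset.sum_boole, Finset.filter_filter]
        congr 2
        ext v
        simp only [mem_filter, mem_univ, true_and]
        omega
    · unfold frac
      congr 1
      rw [Finset.sum_boole, Finset.filter_filter]
      congr 2
      ext v
      simp only [mem_filter, mem_univ, true_and]
      omega
  have havg : avg n d (fun L => frac (step q o L) j - frac o j) =
      (c / (n.descFactorial d : ℝ)) * (prevf (frac o) j - frac o j) := by
    unfold avg
    rw [Finset.sum_congr rfl (fun L _ => frac_step q o L j), hc2, hsumg]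
    ring
  have hFn : (full q o).card ≤ n := by
    have := Finset.card_le_univ (full q o)
    simpa using this
  have hratio := ratio_bound n (full q o).card hFn hn d hd
  have hz : ((full q o).card : ℝ) / n = zf q o := rfl
  rw [hz] at hratio
  set κ := c / (n.descFactorial d : ℝ) with hκ
  have hκ1 : (1 - zf q o) * (n * κ) = 1 - ((full q o).card.descFactorial d : ℝ) /
      (n.descFactorial d : ℝ) := by
    rw [hκ, ← hz]
    have : ((n : ℝ) - (full q o).card) * c / (n.descFactorial d : ℝ) = 1 -
        ((full q o).card.descFactorial d : ℝ) / (n.descFactorial d : ℝ) := by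
      rw [hc1]; field_simp
    rw [← this]
    field_simp
  rw [havg]
  rcases eq_or_lt_of_le (zf_le_one hn q o) with h1 | h1
  · -- all schools full
    have hs := sum_frac q hn o
    rw [h1, sub_self] at hs
    have hzero : ∀ k < q, frac o k = 0 := by
      intro k hk
      have := (Finset.sum_eq_zero_iff_of_nonneg (fun i _ => frac_nonneg o i)).1 hs k
        (mem_range.2 hk)
      exact this
    have hp : prevf (frac o) j - frac o j = 0 := by
      unfold prevf
      rw [hzero j hj]
      split_ifs with h0
      · simp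
      · rw [hzero (j - 1) (by omega)]; simp
    rw [hp]
    simp only [mul_zero, zero_div, sub_self, abs_zero]
    positivity
  · have h1' : 0 < 1 - zf q o := by linarith
    have hdiff : |n * κ - rate d (zf q o)| ≤ 2 * (d : ℝ) ^ 2 / n := by
      have h2 : (1 - zf q o) * |n * κ - rate d (zf q o)| ≤
          (1 - zf q o) * (2 * (d : ℝ) ^ 2 / n) := by
        have h3 : (1 - zf q o) * |n * κ - rate d (zf q o)| =
            |(zf q o) ^ d - ((full q o).card.descFactorial d : ℝ) / (n.descFactorial d : ℝ)| := by
          have h5 : (1 - zf q o) * |n * κ - rate d (zf q o)| =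
              |(1 - zf q o) * (n * κ - rate d (zf q o))| := by
            rw [abs_mul, abs_of_pos h1']
          rw [h5]
          congr 1
          have := rate_mul d (zf q o)
          rw [mul_sub, hκ1]
          linarith
        rw [h3]; exact hratio
      exact le_of_mul_le_mul_left h2 h1'
    have hx : |prevf (frac o) j - frac o j| ≤ 1 := by
      have ha := frac_nonneg o j
      have hb := frac_le_one hn o j
      have hc : 0 ≤ prevf (frac o) j ∧ prevf (frac o) j ≤ 1 := by
        unfold prevf
        split_ifs
        · simp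
        · exact ⟨frac_nonneg _ _, frac_le_one hn _ _⟩
      rw [abs_le]; constructor <;> linarith [hc.1, hc.2]
    have heq : κ * (prevf (frac o) j - frac o j) -
        rate d (zf q o) * (prevf (frac o) j - frac o j) / n =
        (n * κ - rate d (zf q o)) * (prevf (frac o) j - frac o j) / n := by
      field_simp
    rw [heq, abs_div, abs_mul, abs_of_pos hn', div_le_div_iff₀ hn' (by positivity)]
    have h4 : |n * κ - rate d (zf q o)| * |prevf (frac o) j - frac o j| ≤
        2 * (d : ℝ) ^ 2 / n * 1 :=
      mul_le_mul hdiff hx (abs_nonneg _) (by positivity)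
    rw [mul_one, le_div_iff₀ hn'] at h4
    nlinarith

end Pool.Agent.Lib.MP_28dd6c_pr
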