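import Pool.Agent.Lib.MP_28dd6c_pr.LLN

/-!
# Expectations over profiles of lists
-/

namespace Pool.Agent.Lib.MP_28dd6c_pr

open Finset

variable {n d : ℕ}

/-- expectation of a function of the occupancy after `i` students. -/
noncomputable def EW (n d q i : ℕ) (f : (Fin n → ℕ) → ℝ) : ℝ :=
  (∑ L : Fin i → PrefList n d, f (occ q i L)) / (n.descFactorial d : ℝ) ^ i

lemma EW_zero (q : ℕ) (f : (Fin n → ℕ) → ℝ) : EW n d q 0 f = f (fun _ => 0) := by
  unfold EW
  simp [occ]

lemma sum_snoc (i : ℕ) (G : (Fin i → PrefList n d) → PrefList n d → ℝ) :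
    ∑ L : Fin (i + 1) → PrefList n d, G (fun k => L k.castSucc) (L (Fin.last i)) =
      ∑ L' : Fin i → PrefList n d, ∑ a : PrefList n d, G L' a := by
  rw [← Equiv.sum_comp (Fin.snocEquiv (fun _ => PrefList n d)), Fintype.sum_prod_type,
    Finset.sum_comm]
  refine Finset.sum_congr rfl (fun L' _ => Finset.sum_congr rfl (fun a _ => ?_))
  simp [Fin.snocEquiv]

lemma EW_succ (q i : ℕ) (f : (Fin n → ℕ) → ℝ) :
    EW n d q (i + 1) f = EW n d q i (fun o => avg n d (fun L => f (step q o L))) := by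
  unfold EW avg
  have h : ∑ L : Fin (i + 1) → PrefList n d, f (occ q (i + 1) L) =
      ∑ L' : Fin i → PrefList n d, ∑ a : PrefList n d, f (step q (occ q i L') a) :=
    sum_snoc i (fun (L' : Fin i → PrefList n d) (a : PrefList n d) => f (step q (occ q i L') a))
  rw [h, ← Finset.sum_div, pow_succ, div_div, mul_comm]

lemma EW_mono (q i : ℕ) {f g : (Fin n → ℕ) → ℝ} (h : ∀ o, f o ≤ g o) :
    EW n d q i f ≤ EW n d q i g := by
  unfold EW
  exact div_le_div_of_nonneg_right (Finset.sum_le_sum (fun L _ => h _)) (by positivity)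

lemma EW_add (q i : ℕ) (f g : (Fin n → ℕ) → ℝ) :
    EW n d q i (fun o => f o + g o) = EW n d q i f + EW n d q i g := by
  unfold EW; rw [Finset.sum_add_distrib, add_div]

lemma EW_const_mul (q i : ℕ) (c : ℝ) (f : (Fin n → ℕ) → ℝ) :
    EW n d q i (fun o => c * f o) = c * EW n d q i f := by
  unfold EW; rw [← Finset.mul_sum, mul_div_assoc]

lemma descFactorial_ne_zero' (hd : d ≤ n) : (n.descFactorial d : ℝ) ≠ 0 := by
  have : n.descFactorial d ≠ 0 := by
    intro h0
    rw [Nat.descFactorial_eq_zero_iff_lt] at h0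
    omega
  exact_mod_cast this

lemma EW_const (q i : ℕ) (hd : d ≤ n) (c : ℝ) : EW n d q i (fun _ => c) = c := by
  unfold EW
  rw [Finset.sum_const, Finset.card_univ, Fintype.card_fun, card_preflist, Fintype.card_fin,
    nsmul_eq_mul]
  have hcard := descFactorial_ne_zero' hd
  push_cast
  field_simp

lemma matchProb_succ (q i : ℕ) (hd : d ≤ n) :
    matchProb n d q (i + 1) =
      EW n d q i (fun o => 1 - ((full q o).card.descFactorial d : ℝ) / n.descFactorial d) := by
  classical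
  have hcard := descFactorial_ne_zero' hd
  unfold matchProb EW
  rw [Fintype.card_fun, card_preflist, Fintype.card_fin]
  have h1 : ((Finset.univ.filter fun L : Fin (i + 1) → PrefList n d =>
      Matched q (i + 1) L).card : ℝ) =
      ∑ L : Fin (i + 1) → PrefList n d, if Matched q (i + 1) L then (1 : ℝ) else 0 := by
    rw [Finset.sum_boole]
  have h2 : ∀ L : Fin (i + 1) → PrefList n d, (if Matched q (i + 1) L then (1 : ℝ) else 0) =
      (if (∃ j : Fin d, occ q i (fun k => L k.castSucc) ((L (Fin.last i)) j) < q) then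
        (1 : ℝ) else 0) := by
    intro L; exact if_congr Iff.rfl rfl rfl
  have h5 := sum_snoc i (fun (L' : Fin i → PrefList n d) (a : PrefList n d) =>
        if (∃ j : Fin d, occ q i L' (a j) < q) then (1 : ℝ) else 0)
  rw [h1, Finset.sum_congr rfl (fun L _ => h2 L), h5]
  have h3 : ∀ L' : Fin i → PrefList n d, (∑ a : PrefList n d,
        if (∃ j : Fin d, occ q i L' (a j) < q) then (1 : ℝ) else 0) =
      (n.descFactorial d : ℝ) *
      (1 - ((full q (occ q i L')).card.descFactorial d : ℝ) / n.descFactorial d) := by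
    intro L'
    have h4 : ∀ a : PrefList n d, (if (∃ j : Fin d, occ q i L' (a j) < q) then (1 : ℝ) else 0) =
        1 - (if choice q (occ q i L') a = none then 1 else 0) := by
      intro a
      by_cases h : ∃ j : Fin d, occ q i L' (a j) < q
      · have h' : choice q (occ q i L') a ≠ none := by
          rw [Ne, choice_eq_none_iff]
          push Not
          exact h
        rw [if_pos h, if_neg h']; ring
      · have h' : choice q (occ q i L') a = none := by
          rw [choice_eq_none_iff]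
          push Not at h
          exact h
        rw [if_neg h, if_pos h']; ring
    rw [Finset.sum_congr rfl (fun a _ => h4 a), Finset.sum_sub_distrib, Finset.sum_boole,
      card_choice_none, Finset.sum_const, Finset.card_univ, card_preflist]
    simp only [nsmul_eq_mul, mul_one]
    field_simp
  rw [Finset.sum_congr rfl (fun L' _ => h3 L'), ← Finset.mul_sum, Nat.cast_pow, pow_succ,
    mul_comm, mul_div_mul_right _ _ hcard]

/-- the Euler scheme for the internal clock. -/
noncomputable def tt (n d q : ℕ) : ℕ → ℝ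
  | 0 => 0
  | i + 1 => tt n d q i + rate d (zz q (tt n d q i)) / n

lemma tt_nonneg (n d q i : ℕ) : 0 ≤ tt n d q i := by
  induction i with
  | zero => exact le_refl _
  | succ i ih =>
    have := rate_nonneg d (zz_nonneg q ih)
    simp only [tt]
    positivity

lemma EW_dist2 (q : ℕ) (hn : 0 < n) (hd : 2 * d ≤ n) (i : ℕ) :
    EW n d q i (fun o => dist2 q o (tt n d q i)) ≤
      (q * (8 * (d : ℝ) ^ 2 + (1 + d) ^ 2) / n ^ 2) * i *
        (1 + 2 * ((d : ℝ) ^ 2 + 2 * d) * q / n) ^ i := by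
  have hn' : (0 : ℝ) < n := by exact_mod_cast hn
  have hdn : d ≤ n := by omega
  set A := 1 + 2 * ((d : ℝ) ^ 2 + 2 * d) * q / n with hA
  set B := q * (8 * (d : ℝ) ^ 2 + (1 + d) ^ 2) / n ^ 2 with hB
  have hA1 : 1 ≤ A := by
    rw [hA]
    have : 0 ≤ 2 * ((d : ℝ) ^ 2 + 2 * d) * q / n := by positivity
    linarith
  have hB0 : 0 ≤ B := by positivity
  induction i with
  | zero =>
    rw [EW_zero]
    simp only [Nat.cast_zero, mul_zero, zero_mul, tt]
    unfold dist2
    apply le_of_eq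
    apply Finset.sum_eq_zero
    intro j _
    have : frac (fun _ : Fin n => 0) j = pp j 0 := by
      unfold frac pp
      rcases j with _ | j
      · simp [hn'.ne']
      · have : (univ.filter fun _ : Fin n => 0 = j + 1) = ∅ := by
          apply Finset.filter_false_of_mem
          intro v _
          omega
        rw [this]
        simp
    rw [this]; ring
  | succ i ih =>
    rw [EW_succ]
    have h1 : ∀ o : Fin n → ℕ, avg n d (fun L => dist2 q (step q o L) (tt n d q (i + 1))) ≤
        A * dist2 q o (tt n d q i) + B := by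
      intro o
      exact avg_dist2_step q hn hd o (tt_nonneg n d q i)
    have h2 := EW_mono (d := d) q i h1
    rw [EW_add, EW_const_mul, EW_const q i hdn] at h2
    refine h2.trans ?_
    have h3 := mul_le_mul_of_nonneg_left ih (zero_le_one.trans hA1)
    have h4 : 1 ≤ A ^ (i + 1) := one_le_pow₀ hA1
    have h5 : A * (B * i * A ^ i) + B ≤ B * ((i + 1 : ℕ) : ℝ) * A ^ (i + 1) := by
      push_cast
      have : B * 1 ≤ B * A ^ (i + 1) := mul_le_mul_of_nonneg_left h4 hB0
      rw [pow_succ] at *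
      nlinarith
    linarith

/-- The constant in the law of large numbers. -/
noncomputable def CC (d q : ℕ) : ℝ :=
  q * (8 * (d : ℝ) ^ 2 + (1 + d) ^ 2) * q * Real.exp (2 * ((d : ℝ) ^ 2 + 2 * d) * q * q)

lemma EW_dist2' (q : ℕ) (hn : 0 < n) (hd : 2 * d ≤ n) (i : ℕ) (hi : i ≤ n * q) :
    EW n d q i (fun o => dist2 q o (tt n d q i)) ≤ CC d q / n := by
  have hn' : (0 : ℝ) < n := by exact_mod_cast hn
  refine (EW_dist2 q hn hd i).trans ?_
  set K := 2 * ((d : ℝ) ^ 2 + 2 * d) * q with hK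
  have hK0 : 0 ≤ K := by positivity
  have hi' : (i : ℝ) ≤ n * q := by exact_mod_cast hi
  have h1 : (1 + K / n) ^ i ≤ Real.exp (K * q) := by
    have h2 : 1 + K / n ≤ Real.exp (K / n) := by
      have := Real.add_one_le_exp (K / n)
      linarith
    calc (1 + K / n) ^ i ≤ (Real.exp (K / n)) ^ i :=
          pow_le_pow_left₀ (by positivity) h2 i
      _ = Real.exp (i * (K / n)) := by rw [← Real.exp_nat_mul]
      _ ≤ Real.exp (K * q) := by
          apply Real.exp_le_exp.2
          calc (i : ℝ) * (K / n) ≤ (n * q) * (K / n) :=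
                mul_le_mul_of_nonneg_right hi' (by positivity)
            _ = K * q := by field_simp
  have h3 : 0 ≤ q * (8 * (d : ℝ) ^ 2 + (1 + d) ^ 2) / n ^ 2 := by positivity
  calc (q * (8 * (d : ℝ) ^ 2 + (1 + d) ^ 2) / n ^ 2) * i * (1 + K / n) ^ i
      ≤ (q * (8 * (d : ℝ) ^ 2 + (1 + d) ^ 2) / n ^ 2) * (n * q) * Real.exp (K * q) := by
        apply mul_le_mul _ h1 (by positivity) (by positivity)
        exact mul_le_mul_of_nonneg_left hi' h3
    _ = CC d q / n := by
        unfold CC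
        rw [← hK]
        field_simp

lemma small_aux {d q : ℕ} {ε C n : ℝ} (hε : 0 < ε) (hn' : 0 < n) (hCC : 0 ≤ C)
    (h3 : 9 * ((d : ℝ) + 1) ^ 2 * q * C / ε ^ 2 < n) :
    3 * (d : ℝ) ^ 2 * q / ε * (C / n) ≤ ε / 3 := by
  rw [div_lt_iff₀ (by positivity)] at h3
  have h6 : 3 * (d : ℝ) ^ 2 * q / ε * (C / n) = 3 * (d : ℝ) ^ 2 * q * C / (ε * n) := by
    field_simp
  rw [h6, div_le_div_iff₀ (by positivity) (by norm_num)]
  have h7 : (d : ℝ) ^ 2 ≤ ((d : ℝ) + 1) ^ 2 := by
    have : (0 : ℝ) ≤ d := Nat.cast_nonneg d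
    nlinarith
  have h8 : 0 ≤ (q : ℝ) * C := by positivity
  have h9 : (d : ℝ) ^ 2 * (q * C) ≤ ((d : ℝ) + 1) ^ 2 * (q * C) :=
    mul_le_mul_of_nonneg_right h7 h8
  have h10 : ε * (ε * n) = n * ε ^ 2 := by ring
  rw [h10]
  linarith

lemma amgm_aux {ε a S : ℝ} (hε : 0 < ε) (ha : 0 ≤ a) (hS : 0 ≤ S) :
    a * S ≤ ε / 3 + (3 * a ^ 2 / ε) * S ^ 2 := by
  have h6 : 0 ≤ (3 / ε) * (a * S - ε / 3) ^ 2 + a * S := by positivity
  have h7 : (3 / ε) * (a * S - ε / 3) ^ 2 =
      (3 * a ^ 2 / ε) * S ^ 2 - 2 * (a * S) + ε / 3 := by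
    field_simp
    ring
  rw [h7] at h6
  linarith

/-- Pointwise comparison of the unmatched probability. -/
lemma pointwise_bound (q : ℕ) (hn : 0 < n) (hd2 : 2 * d ≤ n) {t : ℝ} (ht0 : 0 ≤ t) {ε : ℝ}
    (hε : 0 < ε) (o : Fin n → ℕ) :
    |(1 - ((full q o).card.descFactorial d : ℝ) / n.descFactorial d) -
      (1 - zz q t ^ d)| ≤ (2 * (d : ℝ) ^ 2 / n + ε / 3) +
        (3 * (d : ℝ) ^ 2 * q / ε) * dist2 q o t := by
  have hn' : (0 : ℝ) < n := by exact_mod_cast hn
  have hFn : (full q o).card ≤ n := by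
    have := Finset.card_le_univ (full q o)
    simpa using this
  have hr := ratio_bound n (full q o).card hFn hn d hd2
  have hz : ((full q o).card : ℝ) / n = zf q o := rfl
  rw [hz] at hr
  have hz0 := zf_nonneg q o
  have hz1 := zf_le_one hn q o
  have hr' : |zf q o ^ d - ((full q o).card.descFactorial d : ℝ) / (n.descFactorial d : ℝ)| ≤
      2 * (d : ℝ) ^ 2 / n := by
    refine hr.trans ?_
    have h0 : 0 ≤ 2 * (d : ℝ) ^ 2 / n := by positivity
    calc (1 - zf q o) * (2 * (d : ℝ) ^ 2 / n) ≤ 1 * (2 * (d : ℝ) ^ 2 / n) :=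
          mul_le_mul_of_nonneg_right (by linarith) h0
      _ = _ := one_mul _
  have hp := pow_sub_pow_le hz0 hz1 (zz_nonneg q ht0) (zz_le_one q ht0) d
  set S := ∑ k ∈ range q, |frac o k - pp k t| with hS
  have hS0 : 0 ≤ S := Finset.sum_nonneg (fun k _ => abs_nonneg _)
  have hzz : |zf q o - zz q t| ≤ S := by
    have h1 := sum_frac q hn o
    have h2 : zf q o - zz q t = -∑ k ∈ range q, (frac o k - pp k t) := by
      rw [Finset.sum_sub_distrib, h1]; unfold zz; ring
    rw [h2, abs_neg]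
    exact Finset.abs_sum_le_sum_abs _ _
  have hcs : S ^ 2 ≤ q * dist2 q o t := by
    have := sq_sum_le_card_mul_sum_sq (s := range q) (f := fun k => |frac o k - pp k t|)
    simp only [sq_abs, Finset.card_range] at this
    exact this
  have hdS : (d : ℝ) * S ≤ ε / 3 + (3 * (d : ℝ) ^ 2 * q / ε) * dist2 q o t := by
    have h4 : (3 * (d : ℝ) ^ 2 / ε) * S ^ 2 ≤ (3 * (d : ℝ) ^ 2 * q / ε) * dist2 q o t := by
      calc (3 * (d : ℝ) ^ 2 / ε) * S ^ 2 ≤ (3 * (d : ℝ) ^ 2 / ε) * (q * dist2 q o t) :=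
            mul_le_mul_of_nonneg_left hcs (by positivity)
        _ = _ := by ring
    have h5 := amgm_aux hε (Nat.cast_nonneg (α := ℝ) d) hS0
    linarith
  have e : (1 - ((full q o).card.descFactorial d : ℝ) / n.descFactorial d) -
    (1 - zz q t ^ d) = (zf q o ^ d - ((full q o).card.descFactorial d : ℝ) /
      (n.descFactorial d : ℝ)) - (zf q o ^ d - zz q t ^ d) := by ring
  rw [e]
  calc _ ≤ |zf q o ^ d - ((full q o).card.descFactorial d : ℝ) /
      (n.descFactorial d : ℝ)| + |zf q o ^ d - zz q t ^ d| := abs_sub _ _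
    _ ≤ 2 * (d : ℝ) ^ 2 / n + d * S := add_le_add hr'
        (hp.trans (mul_le_mul_of_nonneg_left hzz (Nat.cast_nonneg d)))
    _ ≤ _ := by linarith

/-- Law of large numbers for the matching probability. -/
lemma matchProb_approx (d q : ℕ) (ε : ℝ) (hε : 0 < ε) :
    ∃ N : ℕ, ∀ n ≥ N, ∀ i < n * q,
      |matchProb n d q (i + 1) - (1 - zz q (tt n d q i) ^ d)| ≤ ε := by
  -- choose N with everything small
  obtain ⟨N, hN⟩ := exists_nat_gt (max (2 * d + 1 : ℝ)
    (max (6 * (d : ℝ) ^ 2 / ε) (9 * (d + 1) ^ 2 * q * CC d q / ε ^ 2)))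
  refine ⟨N, ?_⟩
  intro n hnN i hi
  have hnN' : (N : ℝ) ≤ n := by exact_mod_cast hnN
  have hlt := lt_of_lt_of_le hN hnN'
  have h1 : (2 * d + 1 : ℝ) < n := (le_max_left _ _).trans_lt hlt
  have h2 : 6 * (d : ℝ) ^ 2 / ε < n :=
    ((le_max_left _ _).trans (le_max_right _ _)).trans_lt hlt
  have h3 : 9 * ((d : ℝ) + 1) ^ 2 * q * CC d q / ε ^ 2 < n :=
    ((le_max_right _ _).trans (le_max_right _ _)).trans_lt hlt
  have hd2 : 2 * d ≤ n := by
    have : (2 * d : ℝ) ≤ n := by linarith
    exact_mod_cast this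
  have hdn : d ≤ n := by omega
  have hn' : (0 : ℝ) < n := by
    have : (0 : ℝ) ≤ 2 * d := by positivity
    linarith
  have hn : 0 < n := by exact_mod_cast hn'
  rw [matchProb_succ q i hdn]
  have ht0 : 0 ≤ tt n d q i := tt_nonneg n d q i
  have hD := EW_dist2' (d := d) q hn hd2 i hi.le
  generalize tt n d q i = t at *
  have hpt := fun o => pointwise_bound (d := d) q hn hd2 ht0 hε o
  -- expectation estimate
  have hub : EW n d q i (fun o => (1 - ((full q o).card.descFactorial d : ℝ) /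
      n.descFactorial d)) ≤ EW n d q i (fun o => ((1 - zz q t ^ d) +
        (2 * (d : ℝ) ^ 2 / n + ε / 3)) + (3 * (d : ℝ) ^ 2 * q / ε) * dist2 q o t) := by
    apply EW_mono
    intro o
    have := (abs_le.1 (hpt o)).2
    linarith
  have hlb : EW n d q i (fun o => ((1 - zz q t ^ d) -
        (2 * (d : ℝ) ^ 2 / n + ε / 3)) + (-(3 * (d : ℝ) ^ 2 * q / ε)) * dist2 q o t) ≤
      EW n d q i (fun o => (1 - ((full q o).card.descFactorial d : ℝ) /
      n.descFactorial d)) := by
    apply EW_mono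
    intro o
    have := (abs_le.1 (hpt o)).1
    linarith
  rw [EW_add, EW_const_mul, EW_const q i hdn] at hub hlb
  have hCC : 0 ≤ CC d q := by unfold CC; positivity
  have h4 : (3 * (d : ℝ) ^ 2 * q / ε) * EW n d q i (fun o => dist2 q o t) ≤ ε / 3 := by
    have h5 : 0 ≤ 3 * (d : ℝ) ^ 2 * q / ε := by positivity
    exact (mul_le_mul_of_nonneg_left hD h5).trans (small_aux hε hn' hCC h3)
  have h5 : 2 * (d : ℝ) ^ 2 / n ≤ ε / 3 := by
    rw [div_lt_iff₀ hε] at h2
    rw [div_le_div_iff₀ hn' (by norm_num)]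
    linarith
  rw [abs_le]
  constructor
  · linarith
  · linarith

end Pool.Agent.Lib.MP_28dd6c_pr
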