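import Pool.Agent.Lib.MP_28dd6c_pr.Drift

/-!
# Law of large numbers for the occupancy profile
-/

namespace Pool.Agent.Lib.MP_28dd6c_pr

open Finset

variable {n d : ℕ}

/-- Poisson weights. -/
noncomputable def pp (j : ℕ) (t : ℝ) : ℝ := Real.exp (-t) * t ^ j / (j.factorial : ℝ)

/-- `P(Poisson(t) ≥ q)`. -/
noncomputable def zz (q : ℕ) (t : ℝ) : ℝ := 1 - ∑ j ∈ range q, pp j t

lemma pp_nonneg (j : ℕ) {t : ℝ} (ht : 0 ≤ t) : 0 ≤ pp j t := by
  unfold pp; positivity

lemma sum_pp_le_one (q : ℕ) {t : ℝ} (ht : 0 ≤ t) : ∑ j ∈ range q, pp j t ≤ 1 := by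
  unfold pp
  have h := Real.sum_le_exp_of_nonneg ht q
  calc ∑ j ∈ range q, Real.exp (-t) * t ^ j / (j.factorial : ℝ)
      = Real.exp (-t) * ∑ j ∈ range q, t ^ j / (j.factorial : ℝ) := by
        rw [Finset.mul_sum]
        exact Finset.sum_congr rfl (fun j _ => by ring)
    _ ≤ Real.exp (-t) * Real.exp t := mul_le_mul_of_nonneg_left h (Real.exp_pos _).le
    _ = 1 := by rw [← Real.exp_add]; simp

lemma pp_le_one (j : ℕ) {t : ℝ} (ht : 0 ≤ t) : pp j t ≤ 1 := by
  have h := sum_pp_le_one (j + 1) ht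
  rw [Finset.sum_range_succ] at h
  have : 0 ≤ ∑ k ∈ range j, pp k t := Finset.sum_nonneg (fun k _ => pp_nonneg k ht)
  linarith

lemma zz_nonneg (q : ℕ) {t : ℝ} (ht : 0 ≤ t) : 0 ≤ zz q t := by
  unfold zz; linarith [sum_pp_le_one q ht]

lemma zz_le_one (q : ℕ) {t : ℝ} (ht : 0 ≤ t) : zz q t ≤ 1 := by
  unfold zz
  have : 0 ≤ ∑ k ∈ range q, pp k t := Finset.sum_nonneg (fun k _ => pp_nonneg k ht)
  linarith

lemma hasDerivAt_pp (j : ℕ) (t : ℝ) :
    HasDerivAt (pp j) (prevf (fun k => pp k t) j - pp j t) t := by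
  unfold pp prevf
  rcases j with _ | j
  · have h := ((hasDerivAt_neg t).exp)
    simp only [pow_zero, mul_one, Nat.factorial_zero, Nat.cast_one, div_one, if_true, zero_sub]
    refine h.congr_deriv ?_
    ring
  · have h : HasDerivAt (fun x : ℝ => Real.exp (-x) * x ^ (j + 1) / ((j + 1).factorial : ℝ)) _ t :=
      (((hasDerivAt_neg t).exp).mul (hasDerivAt_pow (j + 1) t)).div_const
        ((j + 1).factorial : ℝ)
    refine h.congr_deriv ?_
    have h1 : (j + 1 : ℕ) ≠ 0 := by omega
    rw [if_neg h1]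
    simp only [Nat.add_sub_cancel, Nat.factorial_succ]
    push_cast
    have h2 : (j.factorial : ℝ) ≠ 0 := by exact_mod_cast (Nat.factorial_ne_zero j)
    have h3 : (j : ℝ) + 1 ≠ 0 := by positivity
    field_simp
    ring

lemma abs_prevf_sub_le (j : ℕ) {t : ℝ} (ht : 0 ≤ t) :
    |prevf (fun k => pp k t) j - pp j t| ≤ 1 := by
  have ha := pp_nonneg j ht
  have hb := pp_le_one j ht
  have hc : 0 ≤ prevf (fun k => pp k t) j ∧ prevf (fun k => pp k t) j ≤ 1 := by
    unfold prevf
    split_ifs
    · simp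
    · exact ⟨pp_nonneg _ ht, pp_le_one _ ht⟩
  rw [abs_le]; constructor <;> linarith [hc.1, hc.2]

lemma pp_lipschitz (j : ℕ) {s t : ℝ} (hs : 0 ≤ s) (ht : 0 ≤ t) :
    |pp j t - pp j s| ≤ |t - s| := by
  have := (convex_Ici (0 : ℝ)).norm_image_sub_le_of_norm_hasDerivWithin_le
    (f := pp j) (f' := fun x => prevf (fun k => pp k x) j - pp j x) (C := 1)
    (fun x _ => (hasDerivAt_pp j x).hasDerivWithinAt)
    (fun x hx => by rw [Real.norm_eq_abs]; exact abs_prevf_sub_le j hx)
    (x := s) (y := t) hs ht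
  simpa using this

lemma prevf_lipschitz (j : ℕ) {s t : ℝ} (hs : 0 ≤ s) (ht : 0 ≤ t) :
    |(prevf (fun k => pp k t) j - pp j t) - (prevf (fun k => pp k s) j - pp j s)| ≤
      2 * |t - s| := by
  have h1 := pp_lipschitz j hs ht
  have h2 : |prevf (fun k => pp k t) j - prevf (fun k => pp k s) j| ≤ |t - s| := by
    unfold prevf
    split_ifs
    · simp
    · exact pp_lipschitz _ hs ht
  calc _ = |(prevf (fun k => pp k t) j - prevf (fun k => pp k s) j) - (pp j t - pp j s)| := by
        congr 1; ring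
    _ ≤ |prevf (fun k => pp k t) j - prevf (fun k => pp k s) j| + |pp j t - pp j s| :=
        abs_sub _ _
    _ ≤ _ := by linarith

lemma pp_taylor (j : ℕ) {t h : ℝ} (ht : 0 ≤ t) (hh : 0 ≤ h) :
    |pp j (t + h) - pp j t - h * (prevf (fun k => pp k t) j - pp j t)| ≤ 2 * h ^ 2 := by
  have := (convex_Icc t (t + h)).norm_image_sub_le_of_norm_hasDerivWithin_le
    (f := fun x => pp j x - (x - t) * (prevf (fun k => pp k t) j - pp j t))
    (f' := fun x => (prevf (fun k => pp k x) j - pp j x) -
      (prevf (fun k => pp k t) j - pp j t)) (C := 2 * h)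
    (fun x _ => by
      have h1 := (hasDerivAt_pp j x).sub
        (((hasDerivAt_id x).sub_const t).mul_const (prevf (fun k => pp k t) j - pp j t))
      simp only [one_mul] at h1
      exact h1.hasDerivWithinAt)
    (fun x hx => by
      rw [Real.norm_eq_abs]
      have h0 : 0 ≤ x := le_trans ht hx.1
      refine (prevf_lipschitz j ht h0).trans ?_
      rw [abs_of_nonneg (by linarith [hx.1])]
      linarith [hx.2])
    (x := t) (y := t + h) ⟨le_refl _, by linarith⟩ ⟨by linarith, le_refl _⟩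
  simp only [add_sub_cancel_left, sub_self, zero_mul, sub_zero, Real.norm_eq_abs,
    abs_of_nonneg hh] at this
  calc _ = |pp j (t + h) - h * (prevf (fun k => pp k t) j - pp j t) - pp j t| := by
        congr 1; ring
    _ ≤ 2 * h * h := this
    _ = _ := by ring

lemma pow_sub_pow_le {a b : ℝ} (ha : 0 ≤ a) (ha1 : a ≤ 1) (hb : 0 ≤ b) (hb1 : b ≤ 1) (k : ℕ) :
    |a ^ k - b ^ k| ≤ k * |a - b| := by
  induction k with
  | zero => simp
  | succ k ih =>
    have : a ^ (k + 1) - b ^ (k + 1) = a * (a ^ k - b ^ k) + (a - b) * b ^ k := by ring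
    rw [this]
    calc |a * (a ^ k - b ^ k) + (a - b) * b ^ k| ≤ |a * (a ^ k - b ^ k)| + |(a - b) * b ^ k| :=
          abs_add_le _ _
      _ = a * |a ^ k - b ^ k| + |a - b| * b ^ k := by
          rw [abs_mul, abs_mul, abs_of_nonneg ha, abs_of_nonneg (pow_nonneg hb k)]
      _ ≤ 1 * (k * |a - b|) + |a - b| * 1 := by
          apply add_le_add
          · exact mul_le_mul ha1 ih (abs_nonneg _) zero_le_one
          · exact mul_le_mul_of_nonneg_left (pow_le_one₀ hb hb1) (abs_nonneg _)
      _ = ((k + 1 : ℕ) : ℝ) * |a - b| := by push_cast; ring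

lemma rate_nonneg (d : ℕ) {z : ℝ} (hz : 0 ≤ z) : 0 ≤ rate d z :=
  Finset.sum_nonneg (fun k _ => pow_nonneg hz k)

lemma rate_le (d : ℕ) {z : ℝ} (hz : 0 ≤ z) (hz1 : z ≤ 1) : rate d z ≤ d := by
  unfold rate
  calc ∑ k ∈ range d, z ^ k ≤ ∑ k ∈ range d, (1 : ℝ) :=
        Finset.sum_le_sum (fun k _ => pow_le_one₀ hz hz1)
    _ = d := by simp

lemma rate_lipschitz (d : ℕ) {a b : ℝ} (ha : 0 ≤ a) (ha1 : a ≤ 1) (hb : 0 ≤ b) (hb1 : b ≤ 1) :
    |rate d a - rate d b| ≤ (d : ℝ) ^ 2 * |a - b| := by
  unfold rate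
  rw [← Finset.sum_sub_distrib]
  calc |∑ k ∈ range d, (a ^ k - b ^ k)| ≤ ∑ k ∈ range d, |a ^ k - b ^ k| :=
        Finset.abs_sum_le_sum_abs _ _
    _ ≤ ∑ k ∈ range d, (d : ℝ) * |a - b| := by
        apply Finset.sum_le_sum
        intro k hk
        refine (pow_sub_pow_le ha ha1 hb hb1 k).trans ?_
        apply mul_le_mul_of_nonneg_right _ (abs_nonneg _)
        exact_mod_cast (Finset.mem_range.1 hk).le
    _ = (d : ℝ) ^ 2 * |a - b| := by
        rw [Finset.sum_const, Finset.card_range, nsmul_eq_mul]; ring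

/-- squared distance between the empirical profile and the Poisson profile. -/
noncomputable def dist2 (q : ℕ) (o : Fin n → ℕ) (t : ℝ) : ℝ :=
  ∑ j ∈ range q, (frac o j - pp j t) ^ 2

lemma avg_add (f g : PrefList n d → ℝ) : avg n d (fun L => f L + g L) = avg n d f + avg n d g := by
  unfold avg; rw [Finset.sum_add_distrib, add_div]

lemma avg_const_mul (c : ℝ) (f : PrefList n d → ℝ) :
    avg n d (fun L => c * f L) = c * avg n d f := by
  unfold avg; rw [← Finset.mul_sum, mul_div_assoc]

lemma avg_const (hd : d ≤ n) (c : ℝ) : avg n d (fun _ => c) = c := by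
  unfold avg
  rw [Finset.sum_const, Finset.card_univ, card_preflist, nsmul_eq_mul]
  have hcard : (n.descFactorial d : ℝ) ≠ 0 := by
    have : n.descFactorial d ≠ 0 := by
      intro h0
      rw [Nat.descFactorial_eq_zero_iff_lt] at h0
      omega
    exact_mod_cast this
  field_simp

lemma avg_sum {ι : Type*} (s : Finset ι) (f : ι → PrefList n d → ℝ) :
    avg n d (fun L => ∑ i ∈ s, f i L) = ∑ i ∈ s, avg n d (f i) := by
  unfold avg
  rw [Finset.sum_comm, Finset.sum_div]

lemma avg_mono {f g : PrefList n d → ℝ} (h : ∀ L, f L ≤ g L) : avg n d f ≤ avg n d g := by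
  unfold avg
  exact div_le_div_of_nonneg_right (Finset.sum_le_sum (fun L _ => h L)) (Nat.cast_nonneg _)

/-- The one-step inequality. -/
lemma avg_dist2_step (q : ℕ) (hn : 0 < n) (hd : 2 * d ≤ n) (o : Fin n → ℕ) {t : ℝ}
    (ht : 0 ≤ t) :
    avg n d (fun L => dist2 q (step q o L) (t + rate d (zz q t) / n)) ≤
      (1 + 2 * ((d : ℝ) ^ 2 + 2 * d) * q / n) * dist2 q o t +
        q * (8 * (d : ℝ) ^ 2 + (1 + d) ^ 2) / n ^ 2 := by
  have hn' : (0 : ℝ) < n := by exact_mod_cast hn
  have hdn : d ≤ n := by omega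
  set h := rate d (zz q t) / n with hh
  have hz0 := zz_nonneg q ht
  have hz1 := zz_le_one q ht
  have hr0 := rate_nonneg d hz0
  have hr1 := rate_le d hz0 hz1
  have hh0 : 0 ≤ h := by positivity
  have hh1 : h ≤ d / n := div_le_div_of_nonneg_right hr1 hn'.le
  set S := ∑ k ∈ range q, |frac o k - pp k t| with hS
  have hS0 : 0 ≤ S := Finset.sum_nonneg (fun k _ => abs_nonneg _)
  have hSk : ∀ k < q, |frac o k - pp k t| ≤ S := by
    intro k hk
    exact Finset.single_le_sum (f := fun k => |frac o k - pp k t|) (fun i _ => abs_nonneg _)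
      (mem_range.2 hk)
  have hzz : |zf q o - zz q t| ≤ S := by
    have h1 := sum_frac q hn o
    have h2 : zf q o - zz q t = -∑ k ∈ range q, (frac o k - pp k t) := by
      rw [Finset.sum_sub_distrib, h1]; unfold zz; ring
    rw [h2, abs_neg]
    exact Finset.abs_sum_le_sum_abs _ _
  -- the drift comparison
  have hdrift : ∀ j < q, |avg n d (fun L => frac (step q o L) j - frac o j) -
      (pp j (t + h) - pp j t)| ≤ ((d : ℝ) ^ 2 + 2 * d) * S / n + 4 * (d : ℝ) ^ 2 / n ^ 2 := by
    intro j hj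
    have h1 := avg_frac_step (d := d) q hn hd o j hj
    have h2 := pp_taylor j ht hh0
    have hprev : |prevf (frac o) j - prevf (fun k => pp k t) j| ≤ S := by
      unfold prevf
      split_ifs with h0
      · simpa using hS0
      · exact hSk (j - 1) (by omega)
    have hx1 : |prevf (frac o) j - frac o j| ≤ 1 := by
      have ha := frac_nonneg o j
      have hb := frac_le_one hn o j
      have hc : 0 ≤ prevf (frac o) j ∧ prevf (frac o) j ≤ 1 := by
        unfold prevf
        split_ifs
        · simp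
        · exact ⟨frac_nonneg _ _, frac_le_one hn _ _⟩
      rw [abs_le]; constructor <;> linarith [hc.1, hc.2]
    have h3 : |rate d (zf q o) * (prevf (frac o) j - frac o j) -
        rate d (zz q t) * (prevf (fun k => pp k t) j - pp j t)| ≤
        ((d : ℝ) ^ 2 + 2 * d) * S := by
      have e : rate d (zf q o) * (prevf (frac o) j - frac o j) -
        rate d (zz q t) * (prevf (fun k => pp k t) j - pp j t) =
        (rate d (zf q o) - rate d (zz q t)) * (prevf (frac o) j - frac o j) +
        rate d (zz q t) * ((prevf (frac o) j - prevf (fun k => pp k t) j) -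
          (frac o j - pp j t)) := by ring
      rw [e]
      have hl := rate_lipschitz d (zf_nonneg q o) (zf_le_one hn q o) hz0 hz1
      calc _ ≤ |(rate d (zf q o) - rate d (zz q t)) * (prevf (frac o) j - frac o j)| +
            |rate d (zz q t) * ((prevf (frac o) j - prevf (fun k => pp k t) j) -
          (frac o j - pp j t))| := abs_add_le _ _
        _ = |rate d (zf q o) - rate d (zz q t)| * |prevf (frac o) j - frac o j| +
            rate d (zz q t) * |(prevf (frac o) j - prevf (fun k => pp k t) j) -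
          (frac o j - pp j t)| := by rw [abs_mul, abs_mul, abs_of_nonneg hr0]
        _ ≤ ((d : ℝ) ^ 2 * S) * 1 + d * (S + S) := by
          apply add_le_add
          · apply mul_le_mul _ hx1 (abs_nonneg _) (by positivity)
            exact hl.trans (mul_le_mul_of_nonneg_left hzz (by positivity))
          · apply mul_le_mul hr1 _ (abs_nonneg _) (by positivity)
            exact (abs_sub _ _).trans (add_le_add hprev (hSk j hj))
        _ = _ := by ring
    have h4 : |rate d (zf q o) * (prevf (frac o) j - frac o j) / n -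
        h * (prevf (fun k => pp k t) j - pp j t)| ≤ ((d : ℝ) ^ 2 + 2 * d) * S / n := by
      have e : rate d (zf q o) * (prevf (frac o) j - frac o j) / n -
        h * (prevf (fun k => pp k t) j - pp j t) = (rate d (zf q o) *
        (prevf (frac o) j - frac o j) -
        rate d (zz q t) * (prevf (fun k => pp k t) j - pp j t)) / n := by
        rw [hh]; ring
      rw [e, abs_div, abs_of_pos hn']
      exact div_le_div_of_nonneg_right h3 hn'.le
    have h5 : 2 * h ^ 2 ≤ 2 * (d : ℝ) ^ 2 / n ^ 2 := by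
      have h6 : h ^ 2 ≤ ((d : ℝ) / n) ^ 2 := pow_le_pow_left₀ hh0 hh1 2
      calc 2 * h ^ 2 ≤ 2 * ((d : ℝ) / n) ^ 2 := by linarith
        _ = _ := by ring
    have e : avg n d (fun L => frac (step q o L) j - frac o j) - (pp j (t + h) - pp j t) =
        (avg n d (fun L => frac (step q o L) j - frac o j) -
          rate d (zf q o) * (prevf (frac o) j - frac o j) / n) +
        (rate d (zf q o) * (prevf (frac o) j - frac o j) / n -
          h * (prevf (fun k => pp k t) j - pp j t)) -
        (pp j (t + h) - pp j t - h * (prevf (fun k => pp k t) j - pp j t)) := by ring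
    rw [e]
    calc _ ≤ |(avg n d (fun L => frac (step q o L) j - frac o j) -
          rate d (zf q o) * (prevf (frac o) j - frac o j) / n) +
        (rate d (zf q o) * (prevf (frac o) j - frac o j) / n -
          h * (prevf (fun k => pp k t) j - pp j t))| +
        |pp j (t + h) - pp j t - h * (prevf (fun k => pp k t) j - pp j t)| := abs_sub _ _
      _ ≤ (2 * (d : ℝ) ^ 2 / n ^ 2 + ((d : ℝ) ^ 2 + 2 * d) * S / n) + 2 * h ^ 2 :=
        add_le_add ((abs_add_le _ _).trans (add_le_add h1 h4)) h2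
      _ ≤ (2 * (d : ℝ) ^ 2 / n ^ 2 + ((d : ℝ) ^ 2 + 2 * d) * S / n) +
            2 * (d : ℝ) ^ 2 / n ^ 2 := by linarith
      _ = _ := by ring
  -- per-coordinate estimate
  have hcoord : ∀ j < q, avg n d (fun L => (frac (step q o L) j - pp j (t + h)) ^ 2) ≤
      (frac o j - pp j t) ^ 2 + 2 * |frac o j - pp j t| * (((d : ℝ) ^ 2 + 2 * d) * S / n) +
        (8 * (d : ℝ) ^ 2 + (1 + d) ^ 2) / n ^ 2 := by
    intro j hj
    have hd1 := hdrift j hj
    set a := frac o j - pp j t with ha
    set δ := pp j (t + h) - pp j t with hδ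
    have ha1 : |a| ≤ 1 := by
      rw [ha, abs_le]
      constructor <;> linarith [frac_nonneg o j, frac_le_one hn o j, pp_nonneg j ht,
        pp_le_one j ht]
    have hδ1 : |δ| ≤ d / n := by
      have := pp_lipschitz j ht (add_nonneg ht hh0)
      rw [add_sub_cancel_left, abs_of_nonneg hh0] at this
      exact this.trans hh1
    have hpt : ∀ L : PrefList n d, (frac (step q o L) j - pp j (t + h)) ^ 2 ≤
        (a ^ 2 - 2 * a * δ + ((1 + (d : ℝ)) ^ 2) / n ^ 2) +
          (2 * a) * (frac (step q o L) j - frac o j) := by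
      intro L
      have h1 := abs_frac_step_le hn q o L j
      set Δ := frac (step q o L) j - frac o j with hΔ
      have e : frac (step q o L) j - pp j (t + h) = a + (Δ - δ) := by
        rw [ha, hΔ, hδ]; ring
      rw [e]
      have h2 : |Δ - δ| ≤ (1 + (d : ℝ)) / n := by
        refine (abs_sub _ _).trans ?_
        rw [add_div]
        exact add_le_add h1 hδ1
      have h3 : (Δ - δ) ^ 2 ≤ ((1 + (d : ℝ)) / n) ^ 2 := by
        rw [← sq_abs]
        exact pow_le_pow_left₀ (abs_nonneg _) h2 2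
      rw [div_pow] at h3
      nlinarith
    have h6 := avg_mono hpt
    rw [avg_add, avg_const hdn, avg_const_mul] at h6
    refine h6.trans ?_
    have h7 : 2 * a * (avg n d (fun L => frac (step q o L) j - frac o j) - δ) ≤
        2 * |a| * (((d : ℝ) ^ 2 + 2 * d) * S / n) + 8 * (d : ℝ) ^ 2 / n ^ 2 := by
      calc 2 * a * (avg n d (fun L => frac (step q o L) j - frac o j) - δ)
          ≤ |2 * a * (avg n d (fun L => frac (step q o L) j - frac o j) - δ)| := le_abs_self _
        _ = 2 * |a| * |avg n d (fun L => frac (step q o L) j - frac o j) - δ| := by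
            rw [abs_mul, abs_mul, abs_of_pos (by norm_num : (0:ℝ) < 2)]
        _ ≤ 2 * |a| * (((d : ℝ) ^ 2 + 2 * d) * S / n + 4 * (d : ℝ) ^ 2 / n ^ 2) :=
            mul_le_mul_of_nonneg_left hd1 (by positivity)
        _ = 2 * |a| * (((d : ℝ) ^ 2 + 2 * d) * S / n) + |a| * (8 * (d : ℝ) ^ 2 / n ^ 2) := by
            ring
        _ ≤ 2 * |a| * (((d : ℝ) ^ 2 + 2 * d) * S / n) + 1 * (8 * (d : ℝ) ^ 2 / n ^ 2) := by
            have : 0 ≤ 8 * (d : ℝ) ^ 2 / n ^ 2 := by positivity
            nlinarith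
        _ = _ := by ring
    have e2 : (8 * (d : ℝ) ^ 2 + (1 + d) ^ 2) / n ^ 2 = 8 * (d : ℝ) ^ 2 / n ^ 2 +
        (1 + (d : ℝ)) ^ 2 / n ^ 2 := by ring
    rw [e2]
    linarith
  -- sum over coordinates
  have hsum : avg n d (fun L => dist2 q (step q o L) (t + h)) =
      ∑ j ∈ range q, avg n d (fun L => (frac (step q o L) j - pp j (t + h)) ^ 2) := by
    unfold dist2
    exact avg_sum _ _
  rw [hsum]
  calc ∑ j ∈ range q, avg n d (fun L => (frac (step q o L) j - pp j (t + h)) ^ 2)
      ≤ ∑ j ∈ range q, ((frac o j - pp j t) ^ 2 +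
        2 * |frac o j - pp j t| * (((d : ℝ) ^ 2 + 2 * d) * S / n) +
        (8 * (d : ℝ) ^ 2 + (1 + d) ^ 2) / n ^ 2) :=
        Finset.sum_le_sum (fun j hj => hcoord j (mem_range.1 hj))
    _ = dist2 q o t + 2 * ((d : ℝ) ^ 2 + 2 * d) / n * S ^ 2 +
          q * (8 * (d : ℝ) ^ 2 + (1 + d) ^ 2) / n ^ 2 := by
        rw [Finset.sum_add_distrib, Finset.sum_add_distrib, Finset.sum_const, Finset.card_range,
          nsmul_eq_mul, ← Finset.sum_mul, ← Finset.mul_sum]
        unfold dist2
        rw [← hS]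
        ring
    _ ≤ dist2 q o t + 2 * ((d : ℝ) ^ 2 + 2 * d) / n * (q * dist2 q o t) +
          q * (8 * (d : ℝ) ^ 2 + (1 + d) ^ 2) / n ^ 2 := by
        have hcs : S ^ 2 ≤ q * dist2 q o t := by
          have := sq_sum_le_card_mul_sum_sq (s := range q) (f := fun k => |frac o k - pp k t|)
          simp only [sq_abs, Finset.card_range] at this
          exact this
        have : 0 ≤ 2 * ((d : ℝ) ^ 2 + 2 * d) / n := by positivity
        have := mul_le_mul_of_nonneg_left hcs this
        linarith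
    _ = _ := by ring

end Pool.Agent.Lib.MP_28dd6c_pr
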