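import Pool.Agent.Lib.MP_28dd6c_pr.Clock

/-!
# The second key inequality: very long lists
-/

namespace Pool.Agent.Lib.MP_28dd6c_pr

open Finset

lemma pp_mono_index {r : ℕ} {t : ℝ} (ht : (r : ℝ) ≤ t) : ∀ k j : ℕ, j + k = r →
    pp j t ≤ pp r t := by
  have ht0 : 0 ≤ t := (Nat.cast_nonneg r).trans ht
  intro k
  induction k with
  | zero => intro j hj; rw [← hj]; simp
  | succ k ih =>
    intro j hj
    have h1 := ih (j + 1) (by omega)
    have h2 := pp_succ_mul j t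
    have h3 : ((j : ℝ) + 1) ≤ t := by
      have : ((j + 1 : ℕ) : ℝ) ≤ (r : ℝ) := by exact_mod_cast (by omega : j + 1 ≤ r)
      push_cast at this
      linarith
    have h4 := pp_nonneg j ht0
    have h5 : ((j : ℝ) + 1) * pp j t ≤ ((j : ℝ) + 1) * pp (j + 1) t := by
      rw [h2]; exact mul_le_mul_of_nonneg_right h3 h4
    have h6 : pp j t ≤ pp (j + 1) t := le_of_mul_le_mul_left h5 (by positivity)
    linarith

lemma uu_le_small (r : ℕ) {t ε : ℝ} (hε : 0 < ε) (ht1 : (r : ℝ) ≤ t) (ht2 : (r : ℝ) ^ 2 / ε ≤ t)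
    (htpos : 0 < t) : uu (r + 1) t ≤ (1 + ε) * pp r t := by
  have hp := pp_nonneg r htpos.le
  have h1 : ∀ j ∈ range r, pp j t ≤ (r : ℝ) / t * pp r t := by
    intro j hj
    have hj' : j + 1 ≤ r := mem_range.1 hj
    have h2 := pp_succ_mul j t
    have h3 := pp_mono_index ht1 (r - (j + 1)) (j + 1) (by omega)
    rw [div_mul_eq_mul_div, le_div_iff₀ htpos, mul_comm (pp j t), ← h2]
    have h4 : ((j : ℝ) + 1) ≤ r := by exact_mod_cast hj'
    exact mul_le_mul h4 h3 (pp_nonneg _ htpos.le) (Nat.cast_nonneg r)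
  have h5 : uu r t ≤ ε * pp r t := by
    calc uu r t ≤ ∑ j ∈ range r, (r : ℝ) / t * pp r t := Finset.sum_le_sum h1
      _ = (r : ℝ) ^ 2 / t * pp r t := by
          rw [Finset.sum_const, Finset.card_range, nsmul_eq_mul]; ring
      _ ≤ ε * pp r t := by
          apply mul_le_mul_of_nonneg_right _ hp
          rw [div_le_iff₀ htpos]
          rw [div_le_iff₀ hε] at ht2
          linarith
  rw [uu_succ]
  linarith

lemma one_sub_exp_neg_ge {x : ℝ} (hx : 0 ≤ x) : x - x ^ 2 / 2 ≤ 1 - Real.exp (-x) := by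
  have h1 := Real.quadratic_le_exp_of_nonneg hx
  have h2 : 0 < 1 + x + x ^ 2 / 2 := by positivity
  have h3 : Real.exp (-x) ≤ (1 + x + x ^ 2 / 2)⁻¹ := by
    rw [Real.exp_neg]; exact inv_anti₀ h2 h1
  have h4 : (1 + x + x ^ 2 / 2)⁻¹ ≤ 1 - x + x ^ 2 / 2 := by
    rw [inv_le_iff_one_le_mul₀ h2]
    nlinarith [sq_nonneg (x ^ 2)]
  linarith

/-- The second key inequality. -/
lemma key_upper (r : ℕ) {θ : ℝ} (h1 : 1 / 2 < θ) (h2 : θ < 1) : ∃ l₀ : ℕ, ∀ l ≥ l₀,
    ∃ t : ℝ, 0 ≤ t ∧ zz (r + 1) t ^ (l + 1) = 1 - θ ∧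
      TT (l + 1) (r + 1) t < ((r + 1 : ℕ) : ℝ) := by
  set a := -Real.log (1 - θ) with ha
  set b := -Real.log θ with hb
  have hb0 : 0 < b := by
    rw [hb]; have := Real.log_neg (by linarith) h2; linarith
  have hab : b < a := by
    rw [ha, hb]
    have := Real.log_lt_log (by linarith : 0 < 1 - θ) (by linarith : 1 - θ < θ)
    linarith
  have ha0 : 0 < a := hb0.trans hab
  set ε := (a - b) / (2 * b) with hε
  have hε0 : 0 < ε := by
    rw [hε]; exact div_pos (by linarith) (by linarith)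
  have hεb : (1 + ε) * b = (a + b) / 2 := by
    rw [hε]; field_simp; ring
  -- the time t₁
  set t₁ := (r : ℝ) + (r : ℝ) ^ 2 / ε + 1 with ht₁
  have hr2 : 0 ≤ (r : ℝ) ^ 2 / ε := by positivity
  have hr0 : (0 : ℝ) ≤ r := Nat.cast_nonneg r
  have ht₁0 : 0 < t₁ := by rw [ht₁]; linarith
  have hup : ∀ t ≥ t₁, uu (r + 1) t ≤ (1 + ε) * pp r t := by
    intro t ht
    apply uu_le_small r hε0
    · rw [ht₁] at ht; linarith
    · rw [ht₁] at ht; linarith
    · linarith
  set z₁ := zz (r + 1) t₁ with hz₁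
  have hz₁0 : 0 ≤ z₁ := zz_nonneg _ ht₁0.le
  have hz₁1 : z₁ < 1 := by
    rw [hz₁, zz_eq]; linarith [uu_pos r ht₁0.le]
  -- limits
  have hlimA : Filter.Tendsto (fun n : ℕ => t₁ * ((n : ℝ) * z₁ ^ n) + a ^ 2 / 2 * (1 / (n : ℝ)))
      Filter.atTop (nhds 0) := by
    have h3 := (tendsto_self_mul_const_pow_of_lt_one hz₁0 hz₁1).const_mul t₁
    have h4 := (tendsto_one_div_atTop_nhds_zero_nat (𝕜 := ℝ)).const_mul (a ^ 2 / 2)
    have h5 := h3.add h4
    simpa using h5
  have hlimB : Filter.Tendsto (fun n : ℕ => z₁ ^ n) Filter.atTop (nhds 0) :=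
    tendsto_pow_atTop_nhds_zero_of_lt_one hz₁0 hz₁1
  have hevA := hlimA.eventually (gt_mem_nhds (by linarith : (0 : ℝ) < (a - b) / 2))
  have hevB := hlimB.eventually (gt_mem_nhds (by linarith : (0 : ℝ) < 1 - θ))
  obtain ⟨l₀, hl₀⟩ := Filter.eventually_atTop.1 (hevA.and hevB)
  refine ⟨l₀, ?_⟩
  intro l hl
  obtain ⟨hA, hB⟩ := hl₀ (l + 1) (by omega)
  have hL : (0 : ℝ) < (l : ℝ) + 1 := by positivity
  push_cast at hA
  -- the target time
  set zs := Real.exp (-(a / ((l : ℝ) + 1))) with hzs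
  have hx0 : 0 < a / ((l : ℝ) + 1) := by positivity
  have hzs0 : 0 ≤ zs := (Real.exp_pos _).le
  have hzs1 : zs < 1 := by
    rw [hzs, Real.exp_lt_one_iff]; linarith
  obtain ⟨T, hT0, hT⟩ := exists_zz_eq r hzs0 hzs1
  have hTpow : zz (r + 1) T ^ (l + 1) = 1 - θ := by
    rw [hT, hzs, ← Real.exp_nat_mul]
    push_cast
    have : ((l : ℝ) + 1) * -(a / ((l : ℝ) + 1)) = Real.log (1 - θ) := by
      rw [ha]; field_simp
    rw [this, Real.exp_log (by linarith)]
  refine ⟨T, hT0, hTpow, ?_⟩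
  have ht₁T : t₁ ≤ T := by
    by_contra hcon
    push Not at hcon
    have h3 := zz_mono r hT0 hcon.le
    have h4 : zz (r + 1) T ^ (l + 1) ≤ z₁ ^ (l + 1) :=
      pow_le_pow_left₀ (zz_nonneg _ hT0) h3 _
    rw [hTpow] at h4
    linarith
  -- first piece
  have hder1 : ∀ s, 0 ≤ s → HasDerivAt (fun s => TT (l + 1) (r + 1) s -
      (((r + 1 : ℕ) : ℝ) - UU (r + 1) s)) ((rate (l + 1) (zz (r + 1) s))⁻¹ - uu (r + 1) s) s := by
    intro s hs
    have h3 := (hasDerivAt_TT l r hs).sub ((hasDerivAt_UU (r + 1) s).const_sub ((r + 1 : ℕ) : ℝ))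
    refine HasDerivAt.congr_deriv h3 ?_
    ring
  have hpiece1 : TT (l + 1) (r + 1) t₁ - (((r + 1 : ℕ) : ℝ) - UU (r + 1) t₁) ≤
      t₁ * z₁ ^ (l + 1) := by
    have hanti : AntitoneOn (fun s => TT (l + 1) (r + 1) s -
      (((r + 1 : ℕ) : ℝ) - UU (r + 1) s) - s * z₁ ^ (l + 1)) (Set.Icc 0 t₁) := by
      have hder : ∀ s ∈ Set.Icc (0 : ℝ) t₁, HasDerivAt (fun s => TT (l + 1) (r + 1) s -
          (((r + 1 : ℕ) : ℝ) - UU (r + 1) s) - s * z₁ ^ (l + 1))
          ((rate (l + 1) (zz (r + 1) s))⁻¹ - uu (r + 1) s - z₁ ^ (l + 1)) s := by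
        intro s hs
        have h3 := (hder1 s hs.1).sub ((hasDerivAt_id s).mul_const (z₁ ^ (l + 1)))
        refine HasDerivAt.congr_deriv h3 ?_
        ring
      apply antitoneOn_of_deriv_nonpos (convex_Icc 0 t₁)
      · exact fun s hs => (hder s hs).continuousAt.continuousWithinAt
      · intro s hs
        exact (hder s (interior_subset hs)).differentiableAt.differentiableWithinAt
      · intro s hs
        have hs' := interior_subset hs
        rw [(hder s hs').deriv, inv_rate_sub l r hs'.1]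
        have hzs0 := zz_nonneg (r + 1) hs'.1
        have hzs1 := zz_le_one (r + 1) hs'.1
        have hlt := zpow_lt_one l r hs'.1
        have hx1 : zz (r + 1) s ^ (l + 1) ≤ z₁ ^ (l + 1) :=
          pow_le_pow_left₀ hzs0 (zz_mono r hs'.1 hs'.2) _
        have hx2 : zz (r + 1) s ^ (l + 1) ≤ zz (r + 1) s :=
          pow_le_of_le_one hzs0 hzs1 (by omega)
        have hu : uu (r + 1) s = 1 - zz (r + 1) s := by rw [zz_eq]; ring
        set x := zz (r + 1) s ^ (l + 1) with hx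
        have hxx0 : 0 ≤ x := by positivity
        have h5 : uu (r + 1) s * x / (1 - x) ≤ x := by
          rw [div_le_iff₀ (by linarith), hu]
          nlinarith
        linarith
    have h6 := hanti ⟨le_refl _, ht₁0.le⟩ ⟨ht₁0.le, le_refl _⟩ ht₁0.le
    simp only [TT_zero, UU_zero, sub_self, zero_mul] at h6
    linarith
  -- second piece
  have hpiece2 : TT (l + 1) (r + 1) T - (((r + 1 : ℕ) : ℝ) - UU (r + 1) T) +
      (1 + ε) / ((l : ℝ) + 1) * Real.log (1 - zz (r + 1) T ^ (l + 1)) ≤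
      TT (l + 1) (r + 1) t₁ - (((r + 1 : ℕ) : ℝ) - UU (r + 1) t₁) +
      (1 + ε) / ((l : ℝ) + 1) * Real.log (1 - zz (r + 1) t₁ ^ (l + 1)) := by
    have hder : ∀ s ∈ Set.Icc t₁ T, HasDerivAt (fun s => TT (l + 1) (r + 1) s -
        (((r + 1 : ℕ) : ℝ) - UU (r + 1) s) +
        (1 + ε) / ((l : ℝ) + 1) * Real.log (1 - zz (r + 1) s ^ (l + 1)))
        ((rate (l + 1) (zz (r + 1) s))⁻¹ - uu (r + 1) s +
          (1 + ε) / ((l : ℝ) + 1) * (-(((l + 1 : ℕ) : ℝ) * zz (r + 1) s ^ l * pp r s) /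
            (1 - zz (r + 1) s ^ (l + 1)))) s := by
      intro s hs
      have hs0 : 0 ≤ s := ht₁0.le.trans hs.1
      have hlt := zpow_lt_one l r hs0
      have h3 : HasDerivAt (fun s => 1 - zz (r + 1) s ^ (l + 1))
          (-(((l + 1 : ℕ) : ℝ) * zz (r + 1) s ^ l * pp r s)) s := by
        have := ((hasDerivAt_zz r s).pow (l + 1)).const_sub 1
        simpa using this
      have h4 := (h3.log (by linarith)).const_mul ((1 + ε) / ((l : ℝ) + 1))
      exact (hder1 s hs0).add h4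
    have hanti : AntitoneOn (fun s => TT (l + 1) (r + 1) s -
        (((r + 1 : ℕ) : ℝ) - UU (r + 1) s) +
        (1 + ε) / ((l : ℝ) + 1) * Real.log (1 - zz (r + 1) s ^ (l + 1))) (Set.Icc t₁ T) := by
      apply antitoneOn_of_deriv_nonpos (convex_Icc t₁ T)
      · exact fun s hs => (hder s hs).continuousAt.continuousWithinAt
      · intro s hs
        exact (hder s (interior_subset hs)).differentiableAt.differentiableWithinAt
      · intro s hs
        have hs' := interior_subset hs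
        have hs0 : 0 ≤ s := ht₁0.le.trans hs'.1
        rw [(hder s hs').deriv, inv_rate_sub l r hs0]
        have hzs0 := zz_nonneg (r + 1) hs0
        have hzs1 := zz_le_one (r + 1) hs0
        have hlt := zpow_lt_one l r hs0
        have hus := hup s hs'.1
        have hus0 := (uu_pos r hs0).le
        have hz : 0 ≤ zz (r + 1) s ^ l := by positivity
        have e : uu (r + 1) s * zz (r + 1) s ^ (l + 1) / (1 - zz (r + 1) s ^ (l + 1)) +
          (1 + ε) / ((l : ℝ) + 1) * (-(((l + 1 : ℕ) : ℝ) * zz (r + 1) s ^ l * pp r s) /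
            (1 - zz (r + 1) s ^ (l + 1))) =
            zz (r + 1) s ^ l * (uu (r + 1) s * zz (r + 1) s - (1 + ε) * pp r s) /
              (1 - zz (r + 1) s ^ (l + 1)) := by
          push_cast
          have : 1 - zz (r + 1) s ^ (l + 1) ≠ 0 := by linarith
          field_simp
          ring
        rw [e]
        apply div_nonpos_of_nonpos_of_nonneg _ (by linarith)
        apply mul_nonpos_of_nonneg_of_nonpos hz
        nlinarith
    exact hanti ⟨le_refl _, ht₁T⟩ ⟨ht₁T, le_refl _⟩ ht₁T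
  have hlog1 : Real.log (1 - zz (r + 1) t₁ ^ (l + 1)) ≤ 0 := by
    apply Real.log_nonpos
    · have := zpow_lt_one l r ht₁0.le; linarith
    · have : 0 ≤ zz (r + 1) t₁ ^ (l + 1) := by positivity
      linarith
  have hlog2 : Real.log (1 - zz (r + 1) T ^ (l + 1)) = -b := by
    rw [hTpow, hb]; simp
  rw [hlog2] at hpiece2
  have hc0 : 0 ≤ (1 + ε) / ((l : ℝ) + 1) := by positivity
  have h7 : (1 + ε) / ((l : ℝ) + 1) * Real.log (1 - zz (r + 1) t₁ ^ (l + 1)) ≤ 0 :=
    mul_nonpos_of_nonneg_of_nonpos hc0 hlog1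
  have h8 : (1 + ε) / ((l : ℝ) + 1) * -b = -((a + b) / 2 / ((l : ℝ) + 1)) := by
    rw [← hεb]; ring
  rw [h8] at hpiece2
  -- lower bound for U
  have hU := uu_le_UU r hT0
  have hu : uu (r + 1) T = 1 - zs := by rw [← hT, zz_eq]; ring
  have hexp := one_sub_exp_neg_ge hx0.le
  rw [← hzs, ← hu] at hexp
  -- combine
  have h9 : t₁ * z₁ ^ (l + 1) + (a / ((l : ℝ) + 1)) ^ 2 / 2 < (a - b) / 2 / ((l : ℝ) + 1) := by
    rw [lt_div_iff₀ hL]
    calc (t₁ * z₁ ^ (l + 1) + (a / ((l : ℝ) + 1)) ^ 2 / 2) * ((l : ℝ) + 1)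
        = t₁ * (((l : ℝ) + 1) * z₁ ^ (l + 1)) + a ^ 2 / 2 * (1 / ((l : ℝ) + 1)) := by
          field_simp
      _ < (a - b) / 2 := hA
  have h10 : (a - b) / 2 / ((l : ℝ) + 1) = a / ((l : ℝ) + 1) - (a + b) / 2 / ((l : ℝ) + 1) := by
    ring
  rw [h10] at h9
  linarith

end Pool.Agent.Lib.MP_28dd6c_pr
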